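import Mathlib

/-! General facts about weak-star closed cones of functionals. -/

set_option autoImplicit false
set_option linter.unusedSectionVars false
open scoped Topology
open Filter

namespace Pool.Agent.BeurlingBidual

universe u v

variable {E : Type u} [NormedAddCommGroup E] [NormedSpace ℝ E]

theorem lcs_weakDual (E : Type u) [NormedAddCommGroup E] [NormedSpace ℝ E] :
    LocallyConvexSpace ℝ (WeakDual ℝ E) :=
  inferInstanceAs (LocallyConvexSpace ℝ (WeakBilin (topDualPairing ℝ E)))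

/-- weak-star closedness of a set of functionals -/
def WClosed (K : Set (E →L[ℝ] ℝ)) : Prop :=
  IsClosed ((fun F : WeakDual ℝ E => (WeakDual.toStrongDual F : E →L[ℝ] ℝ)) ⁻¹' K)

theorem wclosed_iInter {ι : Sort*} {K : ι → Set (E →L[ℝ] ℝ)} (h : ∀ i, WClosed (K i)) :
    WClosed (⋂ i, K i) := by
  unfold WClosed
  rw [Set.preimage_iInter]
  exact isClosed_iInter h

theorem WClosed.inter {K L : Set (E →L[ℝ] ℝ)} (hK : WClosed K) (hL : WClosed L) :
    WClosed (K ∩ L) := by
  unfold WClosed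
  rw [Set.preimage_inter]
  exact IsClosed.inter hK hL

theorem wclosed_nonneg (h : E) : WClosed {F : E →L[ℝ] ℝ | 0 ≤ F h} := by
  unfold WClosed
  exact isClosed_le continuous_const (WeakDual.eval_continuous h)

theorem wclosed_eq (h : E) (c : ℝ) : WClosed {F : E →L[ℝ] ℝ | F h = c} := by
  unfold WClosed
  exact isClosed_eq (WeakDual.eval_continuous h) continuous_const

/-- Separation of a point from a weak-star closed convex cone. -/
theorem exists_separation {K : Set (E →L[ℝ] ℝ)} (hcl : WClosed K) (h0 : (0 : E →L[ℝ] ℝ) ∈ K)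
    (hadd : ∀ F ∈ K, ∀ F' ∈ K, F + F' ∈ K) (hsmul : ∀ F ∈ K, ∀ c : ℝ, 0 ≤ c → c • F ∈ K)
    {x : E →L[ℝ] ℝ} (hx : x ∉ K) : ∃ h : E, x h < 0 ∧ ∀ F ∈ K, 0 ≤ F h := by
  set t : Set (WeakDual ℝ E) :=
    (fun F : WeakDual ℝ E => (WeakDual.toStrongDual F : E →L[ℝ] ℝ)) ⁻¹' K with ht
  have hconv : Convex ℝ t := by
    intro F hF F' hF' a b ha hb _
    show WeakDual.toStrongDual (a • F + b • F') ∈ K
    rw [map_add, map_smul, map_smul]
    exact hadd _ (hsmul _ hF a ha) _ (hsmul _ hF' b hb)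
  have := lcs_weakDual E
  obtain ⟨f, u, hfx, hft⟩ := geometric_hahn_banach_point_closed (E := WeakDual ℝ E)
    (x := StrongDual.toWeakDual x) hconv hcl hx
  obtain ⟨h, hh⟩ := LinearMap.dualEmbedding_surjective (topDualPairing ℝ E) f
  have hf : ∀ F : WeakDual ℝ E, f F = F h := by
    intro F
    rw [← hh]; rfl
  have hu : u < 0 := by
    have := hft (StrongDual.toWeakDual 0) h0
    rw [hf] at this
    exact this
  refine ⟨h, ?_, ?_⟩
  · rw [hf] at hfx
    exact lt_trans hfx hu
  · intro F hF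
    by_contra hneg
    rw [not_le] at hneg
    have h1 : ∀ c : ℝ, 0 ≤ c → u < c * F h := by
      intro c hc
      have := hft (StrongDual.toWeakDual (c • F)) (hsmul F hF c hc)
      rw [hf] at this
      exact this
    have h2 := h1 (u / F h) (div_nonneg_of_nonpos hu.le hneg.le)
    rw [div_mul_cancel₀ _ hneg.ne] at h2
    exact lt_irrefl _ h2

/-- Separation of a point from a weak-star closed convex set. -/
theorem exists_separation' {D : Set (WeakDual ℝ E)} (hconv : Convex ℝ D) (hcl : IsClosed D)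
    {x : WeakDual ℝ E} (hx : x ∉ D) : ∃ (h : E) (r : ℝ), x h < r ∧ ∀ F ∈ D, r < F h := by
  have := lcs_weakDual E
  obtain ⟨f, u, hfx, hft⟩ := geometric_hahn_banach_point_closed (E := WeakDual ℝ E)
    (x := x) hconv hcl hx
  obtain ⟨h, hh⟩ := LinearMap.dualEmbedding_surjective (topDualPairing ℝ E) f
  have hf : ∀ F : WeakDual ℝ E, f F = F h := by
    intro F
    rw [← hh]; rfl
  refine ⟨h, u, ?_, fun F hF => ?_⟩
  · rw [← hf]; exact hfx
  · rw [← hf]; exact hft F hF

/-- Limits of bounded families of functionals along ultrafilters. -/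
theorem exists_limit {I : Type v} (U : Ultrafilter I) (F : I → (E →L[ℝ] ℝ)) (C : ℝ)
    (hF : ∀ i, ‖F i‖ ≤ C) :
    ∃ Φ : E →L[ℝ] ℝ, ‖Φ‖ ≤ C ∧ ∀ h, Tendsto (fun i => F i h) U (𝓝 (Φ h)) := by
  have hc : IsCompact (WeakDual.toStrongDual ⁻¹' Metric.closedBall (0 : E →L[ℝ] ℝ) C) :=
    WeakDual.isCompact_closedBall (0 : E →L[ℝ] ℝ) C
  have hmem : ∀ i, StrongDual.toWeakDual (F i) ∈
      (WeakDual.toStrongDual ⁻¹' Metric.closedBall (0 : E →L[ℝ] ℝ) C) := by
    intro i
    show F i ∈ Metric.closedBall (0 : E →L[ℝ] ℝ) C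
    simpa using hF i
  obtain ⟨Φ, hΦ, hlim⟩ := hc.ultrafilter_le_nhds (U.map fun i => StrongDual.toWeakDual (F i))
    (by
      rw [le_principal_iff]
      exact Filter.mem_map.2 (Filter.univ_mem' hmem))
  refine ⟨WeakDual.toStrongDual Φ, ?_, fun h => ?_⟩
  · simpa using hΦ
  · have h1 : Tendsto (fun i => StrongDual.toWeakDual (F i)) U (𝓝 Φ) := hlim
    exact ((WeakDual.eval_continuous h).tendsto Φ).comp h1

/-- A weak-star closed bounded set is weak-star compact. -/
theorem wcompact {K : Set (E →L[ℝ] ℝ)} (hcl : WClosed K) {C : ℝ} (hb : ∀ F ∈ K, ‖F‖ ≤ C) :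
    IsCompact ((fun F : WeakDual ℝ E => (WeakDual.toStrongDual F : E →L[ℝ] ℝ)) ⁻¹' K) := by
  have hc : IsCompact (WeakDual.toStrongDual ⁻¹' Metric.closedBall (0 : E →L[ℝ] ℝ) C) :=
    WeakDual.isCompact_closedBall (0 : E →L[ℝ] ℝ) C
  refine hc.of_isClosed_subset hcl ?_
  intro F hF
  show WeakDual.toStrongDual F ∈ Metric.closedBall (0 : E →L[ℝ] ℝ) C
  rw [mem_closedBall_zero_iff]
  exact hb _ hF

/-- The image of a weak-star compact set under a weak-star continuous map is weak-star closed. -/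
theorem wclosed_image {K : Set (E →L[ℝ] ℝ)} (hcl : WClosed K) {C : ℝ} (hb : ∀ F ∈ K, ‖F‖ ≤ C)
    (S : (E →L[ℝ] ℝ) → (E →L[ℝ] ℝ)) (Sd : E → E) (hS : ∀ F h, S F h = F (Sd h)) :
    WClosed (S '' K) := by
  have hc := wcompact hcl hb
  have hcont : Continuous fun F : WeakDual ℝ E =>
      StrongDual.toWeakDual (S (WeakDual.toStrongDual F)) := by
    apply WeakDual.continuous_of_continuous_eval
    intro h
    have : (fun F : WeakDual ℝ E => (StrongDual.toWeakDual (S (WeakDual.toStrongDual F))) h)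
        = fun F : WeakDual ℝ E => F (Sd h) := by
      funext F
      exact hS _ h
    rw [this]
    exact WeakDual.eval_continuous (Sd h)
  have h1 := (hc.image hcont).isClosed
  unfold WClosed
  convert h1 using 1
  ext F
  constructor
  · rintro ⟨F', hF', hFF'⟩
    refine ⟨StrongDual.toWeakDual F', hF', ?_⟩
    show StrongDual.toWeakDual (S F') = F
    rw [hFF']; rfl
  · rintro ⟨F', hF', hFF'⟩
    refine ⟨WeakDual.toStrongDual F', hF', ?_⟩
    show S (WeakDual.toStrongDual F') = WeakDual.toStrongDual F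
    rw [← hFF']; rfl

end Pool.Agent.BeurlingBidual
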