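import Pool.Agent.BeurlingBidual.Twist
import Pool.Agent.BeurlingBidual.WeakStar

/-! Minimal invariant cones of positive functionals and their extreme rays. -/

set_option autoImplicit false
set_option linter.unusedSectionVars false
open scoped Topology BoundedContinuousFunction
open Filter

namespace Pool.Agent.BeurlingBidual

universe u

variable {G : Type u} [Group G] [TopologicalSpace G] [DiscreteTopology G]

/-- A weak-star closed nonzero cone of positive functionals vanishing on the functions in `N`,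
invariant under the twisted translations. -/
structure InvCone (W : Twist G) (N : Set (G →ᵇ ℝ)) (K : Set ((G →ᵇ ℝ) →L[ℝ] ℝ)) : Prop where
  closed : WClosed K
  add : ∀ F ∈ K, ∀ F' ∈ K, F + F' ∈ K
  smul : ∀ F ∈ K, ∀ c : ℝ, 0 ≤ c → c • F ∈ K
  pos : ∀ F ∈ K, Pos F
  null : ∀ F ∈ K, ∀ h ∈ N, F h = 0
  inv : ∀ F ∈ K, ∀ s, F ∘L W.M s ∈ K
  ne : ∃ F ∈ K, F 1 = 1

variable {W : Twist G} {N : Set (G →ᵇ ℝ)} {K : Set ((G →ᵇ ℝ) →L[ℝ] ℝ)}

theorem InvCone.zero (hK : InvCone W N K) : (0 : (G →ᵇ ℝ) →L[ℝ] ℝ) ∈ K := by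
  obtain ⟨F, hF, _⟩ := hK.ne
  have := hK.smul F hF 0 le_rfl
  rwa [zero_smul] at this

/-- the whole cone of positive functionals vanishing on `N` -/
theorem invCone_all (W : Twist G) (N : Set (G →ᵇ ℝ)) (hN : ∀ h ∈ N, ∀ s, W.M s h ∈ N)
    (hne : ∃ F : (G →ᵇ ℝ) →L[ℝ] ℝ, Pos F ∧ (∀ h ∈ N, F h = 0) ∧ F 1 = 1) :
    InvCone W N {F | Pos F ∧ ∀ h ∈ N, F h = 0} where
  closed := by
    have h1 : {F : (G →ᵇ ℝ) →L[ℝ] ℝ | Pos F ∧ ∀ h ∈ N, F h = 0} =
        (⋂ h : {h : G →ᵇ ℝ // ∀ t, 0 ≤ h t}, {F : (G →ᵇ ℝ) →L[ℝ] ℝ | 0 ≤ F h}) ∩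
        (⋂ h : N, {F : (G →ᵇ ℝ) →L[ℝ] ℝ | F h = 0}) := by
      ext F
      simp [Pos]
    rw [h1]
    exact (wclosed_iInter fun h => wclosed_nonneg _).inter (wclosed_iInter fun h => wclosed_eq _ _)
  add := by
    rintro F ⟨h1, h2⟩ F' ⟨h1', h2'⟩
    exact ⟨h1.add h1', fun h hh => by simp [h2 h hh, h2' h hh]⟩
  smul := by
    rintro F ⟨h1, h2⟩ c hc
    exact ⟨h1.smul hc, fun h hh => by simp [h2 h hh]⟩
  pos := fun F hF => hF.1
  null := fun F hF => hF.2
  inv := by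
    rintro F ⟨h1, h2⟩ s
    exact ⟨fun h hh => h1 _ (W.M_nonneg s hh), fun h hh => h2 _ (hN h hh s)⟩
  ne := by
    obtain ⟨F, h1, h2, h3⟩ := hne
    exact ⟨F, ⟨h1, h2⟩, h3⟩

theorem Pos.norm_le_of_one {F : (G →ᵇ ℝ) →L[ℝ] ℝ} (hF : Pos F) {C : ℝ} (h : F 1 ≤ C) :
    ‖F‖ ≤ C := hF.norm_le.trans h

/-- Existence of minimal invariant cones. -/
theorem exists_minimal (hK : InvCone W N K) :
    ∃ K' ⊆ K, InvCone W N K' ∧ ∀ L ⊆ K', InvCone W N L → L = K' := by
  obtain ⟨m, hmK, hm⟩ := zorn_superset_nonempty {L | InvCone W N L} (by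
    intro c hc hchain hcne
    refine ⟨⋂₀ c, ?_, fun s hs => Set.sInter_subset_of_mem hs⟩
    have hne : (⋂₀ c ∩ {F | F 1 = 1}).Nonempty := by
      have hcs : Nonempty c := hcne.to_subtype
      set t : c → Set (WeakDual ℝ (G →ᵇ ℝ)) := fun L =>
        (fun F : WeakDual ℝ (G →ᵇ ℝ) => (WeakDual.toStrongDual F : (G →ᵇ ℝ) →L[ℝ] ℝ)) ⁻¹'
          ((L : Set ((G →ᵇ ℝ) →L[ℝ] ℝ)) ∩ {F | F 1 = 1}) with ht
      have hclosed : ∀ L : c, WClosed ((L : Set ((G →ᵇ ℝ) →L[ℝ] ℝ)) ∩ {F | F 1 = 1}) :=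
        fun L => (hc L.2).closed.inter (wclosed_eq _ _)
      have h1 := IsCompact.nonempty_iInter_of_directed_nonempty_isCompact_isClosed t
        (by
          intro L L'
          rcases hchain.total L.2 L'.2 with h | h
          · exact ⟨L, Set.Subset.rfl, Set.preimage_mono (Set.inter_subset_inter_left _ h)⟩
          · exact ⟨L', Set.preimage_mono (Set.inter_subset_inter_left _ h), Set.Subset.rfl⟩)
        (by
          intro L
          obtain ⟨F, hF, hF1⟩ := (hc L.2).ne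
          exact ⟨StrongDual.toWeakDual F, hF, hF1⟩)
        (by
          intro L
          exact wcompact (hclosed L) (C := 1) fun F hF =>
            ((hc L.2).pos F hF.1).norm_le_of_one (le_of_eq hF.2))
        (fun L => hclosed L)
      obtain ⟨F, hF⟩ := h1
      rw [Set.mem_iInter] at hF
      refine ⟨WeakDual.toStrongDual F, ?_, ?_⟩
      · rw [Set.mem_sInter]
        intro L hL
        exact (hF ⟨L, hL⟩).1
      · obtain ⟨L⟩ := hcs
        exact (hF L).2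
    constructor
    · rw [Set.sInter_eq_iInter]
      exact wclosed_iInter fun L => (hc L.2).closed
    · intro F hF F' hF' L hL
      exact (hc hL).add F (hF L hL) F' (hF' L hL)
    · intro F hF a ha L hL
      exact (hc hL).smul F (hF L hL) a ha
    · intro F hF
      obtain ⟨L, hL⟩ := hcne
      exact (hc hL).pos F (hF L hL)
    · intro F hF
      obtain ⟨L, hL⟩ := hcne
      exact (hc hL).null F (hF L hL)
    · intro F hF s L hL
      exact (hc hL).inv F (hF L hL) s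
    · obtain ⟨F, hF, hF1⟩ := hne
      exact ⟨F, hF, hF1⟩) K hK
  refine ⟨m, hmK, hm.prop, fun L hL hLc => ?_⟩
  exact Set.Subset.antisymm hL (hm.le_of_le hLc hL)

/-- Products with positive functionals stay in the cone. -/
theorem InvCone.box_mem (hK : InvCone W N K) {P F : (G →ᵇ ℝ) →L[ℝ] ℝ} (hP : Pos P)
    (hF : F ∈ K) : W.box P F ∈ K := by
  by_contra hcon
  obtain ⟨h, h1, h2⟩ := exists_separation hK.closed hK.zero hK.add hK.smul hcon
  rw [Twist.box_apply] at h1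
  have : 0 ≤ P (W.T F h) := hP _ fun s => h2 _ (hK.inv F hF s)
  linarith

/-- the extreme ray property -/
def IsExt (K : Set ((G →ᵇ ℝ) →L[ℝ] ℝ)) (e : (G →ᵇ ℝ) →L[ℝ] ℝ) : Prop :=
  e ∈ K ∧ e 1 = 1 ∧ ∀ X ∈ K, ∀ Y ∈ K, ∀ c : ℝ, X + Y = c • e → X = (X 1) • e

theorem exists_ext (hK : InvCone W N K) : ∃ e, IsExt K e := by
  set C : Set (WeakDual ℝ (G →ᵇ ℝ)) :=
    (fun F : WeakDual ℝ (G →ᵇ ℝ) => (WeakDual.toStrongDual F : (G →ᵇ ℝ) →L[ℝ] ℝ)) ⁻¹'
      (K ∩ {F | F 1 = 1}) with hC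
  have hcl : WClosed (K ∩ {F | F 1 = 1}) := hK.closed.inter (wclosed_eq _ _)
  have hcomp : IsCompact C := wcompact hcl (C := 1) fun F hF =>
    (hK.pos F hF.1).norm_le_of_one (le_of_eq hF.2)
  have hne : C.Nonempty := by
    obtain ⟨F, hF, hF1⟩ := hK.ne
    exact ⟨StrongDual.toWeakDual F, hF, hF1⟩
  have := lcs_weakDual (G →ᵇ ℝ)
  obtain ⟨e', he'⟩ := hcomp.extremePoints_nonempty hne
  set e : (G →ᵇ ℝ) →L[ℝ] ℝ := WeakDual.toStrongDual e' with he
  have heC : e ∈ K ∧ e 1 = 1 := he'.1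
  refine ⟨e, heC.1, heC.2, ?_⟩
  intro X hX Y hY c hXY
  have hX1 := (hK.pos X hX).one_nonneg
  have hY1 := (hK.pos Y hY).one_nonneg
  have hc : X 1 + Y 1 = c := by
    have := congrArg (fun F : (G →ᵇ ℝ) →L[ℝ] ℝ => F 1) hXY
    simpa [heC.2] using this
  rcases eq_or_lt_of_le hX1 with h | h
  · rw [← h, zero_smul]
    exact (hK.pos X hX).eq_zero h.symm
  rcases eq_or_lt_of_le hY1 with h' | h'
  · have hY0 : Y = 0 := (hK.pos Y hY).eq_zero h'.symm
    rw [hY0, add_zero] at hXY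
    rw [← h', add_zero] at hc
    rw [hc, ← hXY]
  have hcpos : 0 < c := by linarith
  -- normalise
  have hXm : StrongDual.toWeakDual ((X 1)⁻¹ • X) ∈ C :=
    ⟨hK.smul X hX _ (inv_nonneg.2 hX1), by simp [h.ne']⟩
  have hYm : StrongDual.toWeakDual ((Y 1)⁻¹ • Y) ∈ C :=
    ⟨hK.smul Y hY _ (inv_nonneg.2 hY1), by simp [h'.ne']⟩
  have hmid : e' ∈ openSegment ℝ (StrongDual.toWeakDual ((X 1)⁻¹ • X))
      (StrongDual.toWeakDual ((Y 1)⁻¹ • Y)) := by
    refine ⟨X 1 / c, Y 1 / c, by positivity, by positivity, ?_, ?_⟩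
    · rw [← add_div, hc, div_self hcpos.ne']
    · have h1 : e = (X 1 / c) • ((X 1)⁻¹ • X) + (Y 1 / c) • ((Y 1)⁻¹ • Y) := by
        rw [smul_smul, smul_smul]
        have h2 : X 1 / c * (X 1)⁻¹ = c⁻¹ := by field_simp
        have h3 : Y 1 / c * (Y 1)⁻¹ = c⁻¹ := by field_simp
        rw [h2, h3, ← smul_add, hXY, smul_smul, inv_mul_cancel₀ hcpos.ne', one_smul]
      have h4 : e' = StrongDual.toWeakDual e := rfl
      rw [h4, h1, map_add, map_smul, map_smul]
      simp only [map_smul]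
  have hext := (mem_extremePoints.1 he').2 _ hXm _ hYm hmid
  have h5 : (X 1)⁻¹ • X = e := by
    have := congrArg (WeakDual.toStrongDual) hext.1
    exact this
  rw [← h5, smul_smul, mul_inv_cancel₀ h.ne', one_smul]

/-- Rigidity: an extreme ray of a minimal cone is an eigenvector of right multiplication by every
element of the cone. -/
theorem rigid (hK : InvCone W N K) (hmin : ∀ L ⊆ K, InvCone W N L → L = K)
    {e : (G →ᵇ ℝ) →L[ℝ] ℝ} (he : IsExt K e) {F : (G →ᵇ ℝ) →L[ℝ] ℝ} (hF : F ∈ K) :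
    W.box e F = (W.box e F 1) • e := by
  set S : ((G →ᵇ ℝ) →L[ℝ] ℝ) → ((G →ᵇ ℝ) →L[ℝ] ℝ) := fun X => X + W.box X F with hS
  have hSK : ∀ X ∈ K, S X ∈ K := fun X hX => hK.add _ hX _ (hK.box_mem (hK.pos X hX) hF)
  have hS1 : ∀ X ∈ K, X 1 ≤ S X 1 := by
    intro X hX
    have := (Twist.box_pos W (hK.pos X hX) (hK.pos F hF)).one_nonneg
    show X 1 ≤ X 1 + W.box X F 1
    linarith
  have himg : InvCone W N (S '' K) := by
    constructor
    · -- closedness
      have hR : ∀ R : ℝ, WClosed (S '' (K ∩ {X | X 1 ≤ R})) := by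
        intro R
        refine wclosed_image (C := R) (hK.closed.inter ?_) ?_ S (fun h => h + W.T F h) ?_
        · unfold WClosed
          exact isClosed_le (WeakDual.eval_continuous 1) continuous_const
        · intro X hX
          exact (hK.pos X hX.1).norm_le_of_one hX.2
        · intro X h
          simp [hS]
      unfold WClosed
      rw [← isOpen_compl_iff, isOpen_iff_mem_nhds]
      intro X hX
      set R := X 1 + 1 with hRdef
      have hcl := hR R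
      unfold WClosed at hcl
      have h1 : ((fun F : WeakDual ℝ (G →ᵇ ℝ) =>
          (WeakDual.toStrongDual F : (G →ᵇ ℝ) →L[ℝ] ℝ)) ⁻¹' (S '' (K ∩ {X | X 1 ≤ R})))ᶜ ∈ 𝓝 X := by
        apply hcl.isOpen_compl.mem_nhds
        rintro ⟨Y, hY, hYX⟩
        exact hX ⟨Y, hY.1, hYX⟩
      have h2 : {Y : WeakDual ℝ (G →ᵇ ℝ) | Y 1 < R} ∈ 𝓝 X := by
        apply IsOpen.mem_nhds
        · exact isOpen_lt (WeakDual.eval_continuous 1) continuous_const
        · show X 1 < R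
          rw [hRdef]; exact lt_add_one _
      filter_upwards [h1, h2] with Y hY1 hY2
      rintro ⟨Z, hZ, hZY⟩
      apply hY1
      refine ⟨Z, ⟨hZ, ?_⟩, hZY⟩
      have h3 : S Z 1 = Y 1 := congrArg (fun F : (G →ᵇ ℝ) →L[ℝ] ℝ => F 1) hZY
      have h4 : Y 1 < R := hY2
      show Z 1 ≤ R
      have := hS1 Z hZ
      linarith
    · rintro _ ⟨X, hX, rfl⟩ _ ⟨Y, hY, rfl⟩
      refine ⟨X + Y, hK.add _ hX _ hY, ?_⟩
      simp only [hS, Twist.add_box]
      abel
    · rintro _ ⟨X, hX, rfl⟩ c hc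
      refine ⟨c • X, hK.smul _ hX c hc, ?_⟩
      simp only [hS, Twist.smul_box, smul_add]
    · rintro _ ⟨X, hX, rfl⟩
      exact hK.pos _ (hSK X hX)
    · rintro _ ⟨X, hX, rfl⟩
      exact hK.null _ (hSK X hX)
    · rintro _ ⟨X, hX, rfl⟩ s
      refine ⟨X ∘L W.M s, hK.inv X hX s, ?_⟩
      ext h
      simp [hS, Twist.T_M]
    · obtain ⟨X, hX, hX1⟩ := hK.ne
      have h1 : 0 < S X 1 := by
        have := hS1 X hX
        rw [hX1] at this
        linarith
      refine ⟨(S X 1)⁻¹ • S X, ⟨(S X 1)⁻¹ • X, hK.smul _ hX _ (inv_nonneg.2 h1.le), ?_⟩, ?_⟩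
      · simp only [hS, Twist.smul_box, smul_add]
      · simp [h1.ne']
  have hEq := hmin (S '' K) (by rintro _ ⟨X, hX, rfl⟩; exact hSK X hX) himg
  have hemem : e ∈ S '' K := by rw [hEq]; exact he.1
  obtain ⟨X, hX, hXe⟩ := hemem
  have hXe' : X + W.box X F = (1 : ℝ) • e := by rw [one_smul]; exact hXe
  have hbX := hK.box_mem (hK.pos X hX) hF
  have h1 : X = (X 1) • e := he.2.2 X hX _ hbX 1 hXe'
  have h2 : W.box X F = (W.box X F 1) • e := by
    apply he.2.2 _ hbX X hX 1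
    rw [add_comm]; exact hXe'
  have hX0 : X 1 ≠ 0 := by
    intro h0
    have hX00 : X = 0 := (hK.pos X hX).eq_zero h0
    rw [hX00] at hXe
    have h3 : S 0 = 0 := by
      simp only [hS]
      ext h; simp
    rw [h3] at hXe
    have := he.2.1
    rw [← hXe] at this
    simp at this
  have h3 : e = (X 1)⁻¹ • X := by
    rw [eq_inv_smul_iff₀ hX0]
    exact h1.symm
  rw [h3, Twist.smul_box, h2]
  have h4 : ((X 1)⁻¹ • ((W.box X F 1) • e)) 1 = (X 1)⁻¹ * W.box X F 1 := by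
    show (X 1)⁻¹ * (W.box X F 1 * e 1) = _
    rw [he.2.1, mul_one]
  rw [h4, ← h3, smul_smul]

end Pool.Agent.BeurlingBidual
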