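import Pool.Agent.BeurlingBidual.Data

/-! The core theorem: a nonzero functional `D` with `D □ X □ D = 0` for all `X`. -/

set_option autoImplicit false
set_option linter.unusedSectionVars false
open scoped Topology BoundedContinuousFunction Cardinal Pointwise
open Filter

namespace Pool.Agent.BeurlingBidual

universe u v

variable {G : Type u} [Group G] [TopologicalSpace G] [DiscreteTopology G]

/-- the functional attached to a finitely supported measure -/
noncomputable def fsum (m : G →₀ ℝ) : (G →ᵇ ℝ) →L[ℝ] ℝ := m.sum fun t c => c • ev t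

theorem fsum_apply (m : G →₀ ℝ) (h : G →ᵇ ℝ) : fsum m h = m.sum fun t c => c * h t := by
  unfold fsum Finsupp.sum
  rw [sum_apply]
  rfl

theorem norm_fsum_le {m : G →₀ ℝ} (hm : ∀ t, 0 ≤ m t) : ‖fsum m‖ ≤ m.sum fun _ c => c := by
  have h0 : 0 ≤ m.sum fun _ c => c := Finset.sum_nonneg fun t _ => hm t
  refine ContinuousLinearMap.opNorm_le_bound _ h0 fun h => ?_
  rw [fsum_apply, Finsupp.sum_mul]
  unfold Finsupp.sum
  refine (norm_sum_le m.support (fun t => m t * h t)).trans (Finset.sum_le_sum fun t _ => ?_)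
  rw [norm_mul, Real.norm_of_nonneg (hm t)]
  exact mul_le_mul_of_nonneg_left (h.norm_coe_le_norm t) (hm t)

theorem exists_limit_measure {ι : Type v} (U : Ultrafilter ι) (m : ι → G →₀ ℝ)
    (hm : ∀ i t, 0 ≤ m i t) {C : ℝ} (hC : ∀ i, ((m i).sum fun _ c => c) = C) :
    ∃ Q : (G →ᵇ ℝ) →L[ℝ] ℝ, Pos Q ∧
      ∀ h : G →ᵇ ℝ, Tendsto (fun i => (m i).sum fun t c => c * h t) U (𝓝 (Q h)) := by
  obtain ⟨Q, -, hQ⟩ := exists_limit U (fun i => fsum (m i)) C
    (fun i => (norm_fsum_le (hm i)).trans (le_of_eq (hC i)))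
  simp only [fsum_apply] at hQ
  refine ⟨Q, ?_, hQ⟩
  intro h hh
  refine ge_of_tendsto (hQ h) (Eventually.of_forall fun i => ?_)
  exact Finset.sum_nonneg fun t _ => mul_nonneg (hm i t) (hh t)

/-- locality -/
theorem T_eq_of_eqOn {W : Twist G} {ι : Type v} {U : Ultrafilter ι} {m : ι → G →₀ ℝ}
    {Q : (G →ᵇ ℝ) →L[ℝ] ℝ}
    (hQ : ∀ h : G →ᵇ ℝ, Tendsto (fun i => (m i).sum fun t c => c * h t) U (𝓝 (Q h)))
    {S : ι → Finset G} (hS : ∀ s, ∀ᶠ i in (U : Filter ι), s ∈ S i) {h k : G →ᵇ ℝ}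
    (hhk : ∀ i, ∀ s ∈ S i, ∀ t ∈ (m i).support, h (s * t) = k (s * t)) :
    W.T Q h = W.T Q k := by
  ext s
  rw [Twist.T_apply, Twist.T_apply]
  refine tendsto_nhds_unique (hQ (W.M s h)) ((tendsto_congr' ?_).1 (hQ (W.M s k)))
  filter_upwards [hS s] with i hi
  refine Finset.sum_congr rfl fun t ht => ?_
  show m i t * W.M s k t = m i t * W.M s h t
  rw [Twist.M_apply, Twist.M_apply, hhk i s hi t ht]

/-- multiplication operators lift through `T_Q` -/
theorem exists_lift {W : Twist G} {ι : Type u} [LinearOrder ι] {U : Ultrafilter ι}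
    {m : ι → G →₀ ℝ} {Q : (G →ᵇ ℝ) →L[ℝ] ℝ}
    (hQ : ∀ h : G →ᵇ ℝ, Tendsto (fun i => (m i).sum fun t c => c * h t) U (𝓝 (Q h)))
    {S : ι → Finset G} (hS : ∀ s, ∀ᶠ i in (U : Filter ι), s ∈ S i)
    (hself : ∀ i, ∀ s ∈ S i, ∀ s' ∈ S i, ∀ t ∈ (m i).support, ∀ t' ∈ (m i).support,
      s * t = s' * t' → s = s')
    (hcross : ∀ i j, j < i → ∀ s ∈ S i, ∀ s' ∈ S j, ∀ t ∈ (m i).support,
      ∀ t' ∈ (m j).support, s * t ≠ s' * t')
    (g : G →ᵇ ℝ) : ∃ h : G →ᵇ ℝ, W.T Q h = g * W.T Q 1 := by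
  classical
  set R : G → Prop := fun x => ∃ p : ι × G × G, p.2.1 ∈ S p.1 ∧ p.2.2 ∈ (m p.1).support ∧
    x = p.2.1 * p.2.2 with hR
  set hf : G → ℝ := fun x => if hx : R x then g (Classical.choose hx).2.1 else 0 with hhf
  have hbound : ∀ x, ‖hf x‖ ≤ ‖g‖ := by
    intro x
    rw [hhf]
    by_cases hx : R x
    · simp only [dif_pos hx]
      exact g.norm_coe_le_norm _
    · simp only [dif_neg hx, norm_zero]
      exact norm_nonneg _
  have hval : ∀ i, ∀ s ∈ S i, ∀ t ∈ (m i).support, hf (s * t) = g s := by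
    intro i s hs t ht
    have hx : R (s * t) := ⟨(i, s, t), hs, ht, rfl⟩
    rw [hhf]
    simp only [dif_pos hx]
    obtain ⟨h1, h2, h3⟩ := Classical.choose_spec hx
    set p := Classical.choose hx with hp
    rcases lt_trichotomy p.1 i with h | h | h
    · exact absurd h3 (hcross i p.1 h s hs p.2.1 h1 t ht p.2.2 h2)
    · rw [h] at h1 h2
      rw [hself i p.2.1 h1 s hs p.2.2 h2 t ht h3.symm]
    · exact absurd h3.symm (hcross p.1 i h p.2.1 h1 s hs p.2.2 h2 t ht)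
  refine ⟨mkB hf ‖g‖ hbound, ?_⟩
  ext s
  rw [BoundedContinuousFunction.coe_mul, Pi.mul_apply, Twist.T_apply, Twist.T_apply]
  have h1 := (hQ (W.M s 1)).const_mul (g s)
  refine tendsto_nhds_unique (hQ (W.M s (mkB hf ‖g‖ hbound))) ((tendsto_congr' ?_).1 h1)
  filter_upwards [hS s] with i hi
  unfold Finsupp.sum
  rw [Finset.mul_sum]
  refine Finset.sum_congr rfl fun t ht => ?_
  show g s * (m i t * W.M s 1 t) = m i t * W.M s (mkB hf ‖g‖ hbound) t
  rw [Twist.M_apply, Twist.M_apply, mkB_apply, hval i s hi t ht]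
  simp only [BoundedContinuousFunction.coe_one, Pi.one_apply]
  ring

theorem caseII [Infinite G] {W : Twist G} {K : Set ((G →ᵇ ℝ) →L[ℝ] ℝ)}
    (hK : InvCone W (NS G) K) (hmin : ∀ L ⊆ K, InvCone W (NS G) L → L = K)
    {e : (G →ᵇ ℝ) →L[ℝ] ℝ} (he : IsExt K e) {Ψ : (G →ᵇ ℝ) →L[ℝ] ℝ} (hΨ : Pos Ψ)
    (hne : W.box e (W.box Ψ e) ≠ 0) :
    ∃ D : (G →ᵇ ℝ) →L[ℝ] ℝ, D ≠ 0 ∧ ∀ X, W.box (W.box D X) D = 0 := by
  classical
  have hepos := hK.pos e he.1
  have hΨe := hK.box_mem hΨ he.1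
  set γ : ℝ := W.box e (W.box Ψ e) 1 with hγ
  have hrig : W.box e (W.box Ψ e) = γ • e := rigid hK hmin he hΨe
  have hγ0 : γ ≠ 0 := by
    intro h0
    rw [h0, zero_smul] at hrig
    exact hne hrig
  have hγpos : 0 < γ :=
    lt_of_le_of_ne (W.box_pos hepos (W.box_pos hΨ hepos)).one_nonneg (Ne.symm hγ0)
  set P : (G →ᵇ ℝ) →L[ℝ] ℝ := γ⁻¹ • W.box e Ψ with hPdef
  set F1 : (G →ᵇ ℝ) →L[ℝ] ℝ := γ⁻¹ • W.box Ψ e with hF1def
  have hPe : W.box P e = e := by
    rw [hPdef, Twist.smul_box, Twist.box_assoc, hrig, smul_smul, inv_mul_cancel₀ hγ0, one_smul]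
  have heF1 : W.box e F1 = e := by
    rw [hF1def, Twist.box_smul, hrig, smul_smul, inv_mul_cancel₀ hγ0, one_smul]
  have hPpos : Pos P := (W.box_pos hepos hΨ).smul (inv_nonneg.2 hγpos.le)
  have hP0 : ∀ h ∈ NS G, P h = 0 := by
    intro h hh
    show γ⁻¹ * W.box e Ψ h = 0
    rw [box_null W hepos hΨ (fun h hh => hK.null e he.1 h hh) h hh, mul_zero]
  have hF1K : F1 ∈ K := hK.smul _ hΨe _ (inv_nonneg.2 hγpos.le)
  have hF1pos := hK.pos F1 hF1K
  -- the set `B`
  set w1 : G →ᵇ ℝ := W.T F1 1 with hw1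
  have hew1 : e w1 = 1 := by
    have h1 : e w1 = W.box e F1 1 := rfl
    rw [h1, heF1, he.2.1]
  set B : Set G := {t | 1 / 2 ≤ w1 t} with hBdef
  have hB : 0 < e (ind B) := by
    have h1 : e w1 ≤ e ((1 / 2 : ℝ) • 1 + ‖w1‖ • ind B) := by
      apply hepos.mono
      intro t
      show w1 t ≤ (1 / 2 : ℝ) * 1 + ‖w1‖ * ind B t
      by_cases ht : t ∈ B
      · rw [ind_apply_mem ht, mul_one]
        have := (le_abs_self _).trans (w1.norm_coe_le_norm t)
        linarith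
      · rw [ind_apply_not_mem ht, mul_zero, mul_one, add_zero]
        exact (not_le.1 ht).le
    rw [map_add, map_smul, map_smul, smul_eq_mul, smul_eq_mul, he.2.1, hew1] at h1
    by_contra hcon
    rw [not_lt] at hcon
    have := mul_nonpos_of_nonneg_of_nonpos (norm_nonneg w1) hcon
    linarith
  set v : G →ᵇ ℝ := W.T e 1 with hv
  set f : G → (G →ᵇ ℝ) := fun s => W.M s 1 - (e (W.M s 1)) • 1 with hf
  have hef : ∀ s, e (f s) = 0 := by
    intro s
    rw [hf]
    simp only [map_sub, map_smul, smul_eq_mul, he.2.1, mul_one, sub_self]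
  obtain ⟨ι, hlo, hwf, φ, hι⟩ := exists_index G
  set S : ι → Finset G := fun i => insert 1 (φ i).1 with hSdef
  set η : ι → ℝ := fun i => 1 / (((φ i).2 : ℝ) + 1) with hηdef
  obtain ⟨a, b, c, hstep, haa, hbc, hcb⟩ := exists_data hK hmin he hB f hef hPpos hP0 v hι S
    (fun i => Finset.insert_nonempty _ _) η (fun i => by rw [hηdef]; positivity)
  -- the ultrafilter
  have hnb : (comap φ (atTop : Filter (Finset G × ℕ))).NeBot :=
    Filter.NeBot.comap_of_surj inferInstance φ.surjective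
  set U : Ultrafilter ι := Ultrafilter.of (comap φ (atTop : Filter (Finset G × ℕ))) with hU
  have hUle : (U : Filter ι) ≤ comap φ atTop := Ultrafilter.of_le _
  have hUS : ∀ s, ∀ᶠ i in (U : Filter ι), s ∈ S i := by
    intro s
    apply hUle
    refine ⟨{p | (({s} : Finset G), 0) ≤ p}, mem_atTop _, ?_⟩
    intro i hi
    have h1 : ({s} : Finset G) ⊆ (φ i).1 := hi.1
    exact Finset.mem_insert_of_mem (h1 (Finset.mem_singleton_self s))
  have hUη : Tendsto η U (𝓝 0) := by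
    have h1 : Tendsto (fun i => (φ i).2) U atTop := by
      have h2 : Tendsto φ U atTop := tendsto_iff_comap.2 hUle
      have h3 : Tendsto (Prod.snd : Finset G × ℕ → ℕ) atTop atTop := by
        rw [← prod_atTop_atTop_eq]
        exact tendsto_snd
      exact h3.comp h2
    have h2 := (tendsto_one_div_add_atTop_nhds_zero_nat (𝕜 := ℝ)).comp h1
    exact h2
  obtain ⟨Q, hQpos, hQ⟩ := exists_limit_measure U a (fun i => (hstep i).a_nonneg)
    (fun i => (hstep i).a_sum)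
  obtain ⟨Q1, hQ1pos, hQ1⟩ := exists_limit_measure U b (fun i => (hstep i).b_nonneg)
    (fun i => (hstep i).b_sum)
  obtain ⟨Q2, hQ2pos, hQ2⟩ := exists_limit_measure U c (fun i => (hstep i).c_nonneg)
    (fun i => (hstep i).c_sum)
  -- (i)
  have hQf : ∀ F ∈ K, ∀ s, Q (W.T F (f s)) = 0 := by
    have key : ∀ F ∈ K, F 1 = 1 → ∀ s, Q (W.T F (f s)) = 0 := by
      intro F hF hF1 s
      have h1 := hQ (W.T F (f s))
      refine tendsto_nhds_unique h1 ?_
      refine squeeze_zero_norm' ?_ hUη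
      filter_upwards [hUS s] with i hi
      exact (hstep i).a_lim F hF hF1 s hi
    intro F hF s
    rcases eq_or_ne (F 1) 0 with h0 | h0
    · have : F = 0 := (hK.pos F hF).eq_zero h0
      have h2 : W.T F (f s) = 0 := by ext t; simp [this]
      rw [h2, map_zero]
    · have hF1 := (hK.pos F hF).one_nonneg
      have h2 := key ((F 1)⁻¹ • F) (hK.smul F hF _ (inv_nonneg.2 hF1)) (by
        show (F 1)⁻¹ * F 1 = 1
        exact inv_mul_cancel₀ h0) s
      rw [Twist.T_smul, map_smul, smul_eq_mul] at h2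
      exact (mul_eq_zero.1 h2).resolve_left (inv_ne_zero h0)
  have hTQF : ∀ F ∈ K, W.T (W.box Q F) 1 = (Q (W.T F 1)) • v := by
    intro F hF
    ext s
    have h1 := hQf F hF s
    rw [hf] at h1
    simp only [map_sub, map_smul, smul_eq_mul] at h1
    show Q (W.T F (W.M s 1)) = Q (W.T F 1) * e (W.M s 1)
    linarith
  -- (iii)
  have hTP : W.T P v = v := by
    rw [hv, ← Twist.T_box, hPe]
  have hT1 : W.T Q1 v = v := by
    ext s
    have h1 : v s = P (W.M s v) := by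
      conv_lhs => rw [← hTP]
      rfl
    rw [h1, Twist.T_apply]
    refine tendsto_nhds_unique (hQ1 (W.M s v)) ?_
    rw [tendsto_iff_norm_sub_tendsto_zero]
    refine squeeze_zero' (Eventually.of_forall fun i => norm_nonneg _) ?_ hUη
    filter_upwards [hUS s] with i hi
    exact (hstep i).b_lim s hi
  have hT2 : W.T Q2 v = v := by
    ext s
    have h1 : v s = P (W.M s v) := by
      conv_lhs => rw [← hTP]
      rfl
    rw [h1, Twist.T_apply]
    refine tendsto_nhds_unique (hQ2 (W.M s v)) ?_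
    rw [tendsto_iff_norm_sub_tendsto_zero]
    refine squeeze_zero' (Eventually.of_forall fun i => norm_nonneg _) ?_ hUη
    filter_upwards [hUS s] with i hi
    exact (hstep i).c_lim s hi
  -- the functionals `D`
  have hPmul : ∀ Y ∈ K, W.box P Y = (W.box P Y 1) • e := by
    intro Y hY
    have h1 : W.box P Y = γ⁻¹ • W.box e (W.box Ψ Y) := by
      rw [hPdef, Twist.smul_box, Twist.box_assoc]
    have h2 := rigid hK hmin he (hK.box_mem hΨ hY)
    have h3 : W.box P Y 1 = γ⁻¹ * W.box e (W.box Ψ Y) 1 := by rw [h1]; rfl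
    rw [h3, h1]
    conv_lhs => rw [h2]
    rw [smul_smul]
  have hDK : ∀ Q' : (G →ᵇ ℝ) →L[ℝ] ℝ, Pos Q' → W.T Q' v = v → ∀ F ∈ K,
      W.box (W.box (W.box P Q' - P) Q) F = 0 := by
    intro Q' hQ'pos hQ' F hF
    have hY := hK.box_mem hQpos hF
    rw [Twist.box_assoc, Twist.sub_box, Twist.box_assoc, hPmul _ (hK.box_mem hQ'pos hY),
      hPmul _ hY]
    have h1 : W.box P (W.box Q' (W.box Q F)) 1 = W.box P (W.box Q F) 1 := by
      rw [Twist.box_apply, Twist.box_apply, Twist.T_box, hTQF F hF, map_smul, hQ']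
    rw [h1]
    exact sub_self (G := (G →ᵇ ℝ) →L[ℝ] ℝ) _
  have hrad : ∀ Q' : (G →ᵇ ℝ) →L[ℝ] ℝ, Pos Q' → W.T Q' v = v → ∀ X,
      W.box (W.box (W.box (W.box P Q' - P) Q) X) (W.box (W.box P Q' - P) Q) = 0 := by
    intro Q' hQ'pos hQ' X
    set D := W.box (W.box P Q' - P) Q with hD
    have hDe : D = γ⁻¹ • W.box e (W.box (W.box Ψ Q' - Ψ) Q) := by
      have h2 : W.box P Q' - P = γ⁻¹ • W.box e (W.box Ψ Q' - Ψ) := by
        rw [hPdef, Twist.smul_box, W.box_assoc e Ψ Q', Twist.box_sub]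
        ext h
        show γ⁻¹ * W.box e (W.box Ψ Q') h - γ⁻¹ * W.box e Ψ h =
          γ⁻¹ * (W.box e (W.box Ψ Q') h - W.box e Ψ h)
        ring
      rw [hD, h2, Twist.smul_box, Twist.box_assoc]
    have h1 : W.box (W.box D X) e = 0 := by
      obtain ⟨X1, X2, hX1, hX2, hX⟩ := exists_diff_pos X
      rw [Twist.box_assoc, hX, Twist.sub_box, Twist.box_sub,
        hDK Q' hQ'pos hQ' _ (hK.box_mem hX1 he.1), hDK Q' hQ'pos hQ' _ (hK.box_mem hX2 he.1)]
      exact sub_self (G := (G →ᵇ ℝ) →L[ℝ] ℝ) _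
    have h2 : W.box (W.box D X) D =
        γ⁻¹ • W.box (W.box (W.box D X) e) (W.box (W.box Ψ Q' - Ψ) Q) := by
      rw [W.box_assoc (W.box D X) e, ← Twist.box_smul, ← hDe]
    rw [h2, h1]
    ext h
    simp
  -- nontriviality
  set w0 : G →ᵇ ℝ := W.T Q 1 with hw0
  have hw0nn : ∀ t, 0 ≤ w0 t := W.T_nonneg hQpos fun _ => zero_le_one
  have hψ : 1 / 2 ≤ Q w1 := by
    refine ge_of_tendsto (hQ w1) (Eventually.of_forall fun i => ?_)
    calc (1 / 2 : ℝ) = ((a i).sum fun _ x => x) * (1 / 2) := by rw [(hstep i).a_sum, one_mul]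
      _ = (a i).sum fun _ x => x * (1 / 2) := by rw [Finsupp.sum_mul]
      _ ≤ _ := Finset.sum_le_sum fun t ht =>
          mul_le_mul_of_nonneg_left ((hstep i).a_supp t ht) ((hstep i).a_nonneg t)
  have hPv : P v = 1 := by
    have h1 : P v = W.box P e 1 := rfl
    rw [h1, hPe, he.2.1]
  have hPw0 : 0 < P w0 := by
    have h1 : P (W.T Q w1) = Q w1 := by
      rw [hw1, ← Twist.T_box, hTQF F1 hF1K, map_smul, smul_eq_mul, hPv, mul_one]
    have h2 : P (W.T Q w1) ≤ P (‖w1‖ • w0) := by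
      apply hPpos.mono
      intro s
      show W.T Q w1 s ≤ ‖w1‖ * w0 s
      have h3 : ‖w1‖ * w0 s = W.T Q (‖w1‖ • 1) s := by
        rw [map_smul]; rfl
      rw [h3]
      apply W.T_mono hQpos
      intro t
      show w1 t ≤ ‖w1‖ * 1
      rw [mul_one]
      exact (le_abs_self _).trans (w1.norm_coe_le_norm t)
    rw [h1, map_smul, smul_eq_mul] at h2
    by_contra hcon
    rw [not_lt] at hcon
    have := mul_nonpos_of_nonneg_of_nonpos (norm_nonneg w1) hcon
    linarith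
  have hlift := exists_lift (W := W) hQ hUS (fun i => (hstep i).a_coll) haa
  have hZ : ∀ (m : ι → G →₀ ℝ) (Q' : (G →ᵇ ℝ) →L[ℝ] ℝ),
      (∀ h : G →ᵇ ℝ, Tendsto (fun i => (m i).sum fun t c => c * h t) U (𝓝 (Q' h))) →
      W.box (W.box P Q' - P) Q = 0 →
      P (ind {x | ∃ i, ∃ s ∈ S i, ∃ t ∈ (m i).support, x = s * t} * w0) = P w0 := by
    intro m Q' hQ' hD0
    set Z : Set G := {x | ∃ i, ∃ s ∈ S i, ∃ t ∈ (m i).support, x = s * t} with hZdef
    have h0 : ∀ h, P (W.T Q' (W.T Q h)) = P (W.T Q h) := by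
      intro h
      have h1 := congrArg (fun F : (G →ᵇ ℝ) →L[ℝ] ℝ => F h) hD0
      have h2 : P (W.T Q' (W.T Q h)) - P (W.T Q h) = 0 := h1
      linarith
    obtain ⟨h, hh⟩ := hlift (ind Z)
    have h1 := h0 h
    rw [hh] at h1
    have h2 : W.T Q' (ind Z * w0) = W.T Q' w0 := by
      apply T_eq_of_eqOn hQ' hUS
      intro i s hs t ht
      rw [BoundedContinuousFunction.coe_mul, Pi.mul_apply,
        ind_apply_mem (A := Z) ⟨i, s, hs, t, ht, rfl⟩, one_mul]
    rw [h2] at h1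
    rw [← h1]
    exact h0 1
  have hor : W.box (W.box P Q1 - P) Q ≠ 0 ∨ W.box (W.box P Q2 - P) Q ≠ 0 := by
    by_contra hcon
    push Not at hcon
    have h1 := hZ b Q1 hQ1 hcon.1
    have h2 := hZ c Q2 hQ2 hcon.2
    set Z1 : Set G := {x | ∃ i, ∃ s ∈ S i, ∃ t ∈ (b i).support, x = s * t} with hZ1
    set Z2 : Set G := {x | ∃ i, ∃ s ∈ S i, ∃ t ∈ (c i).support, x = s * t} with hZ2
    have hdisj : ∀ x, x ∈ Z1 → x ∈ Z2 → False := by
      rintro x ⟨i, s, hs, t, ht, rfl⟩ ⟨j, s', hs', t', ht', heq⟩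
      rcases lt_trichotomy i j with h | h | h
      · exact hcb j i h s' hs' s hs t' ht' t ht heq.symm
      · subst h
        exact (hstep i).bc_coll s hs s' hs' t ht t' ht' heq
      · exact hbc i j h s hs s' hs' t ht t' ht' heq
    have h3 : P (ind Z1 * w0 + ind Z2 * w0) ≤ P w0 := by
      apply hPpos.mono
      intro x
      show ind Z1 x * w0 x + ind Z2 x * w0 x ≤ w0 x
      by_cases hx1 : x ∈ Z1
      · have hx2 : x ∉ Z2 := fun h => hdisj x hx1 h
        rw [ind_apply_mem hx1, ind_apply_not_mem hx2]; linarith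
      · rw [ind_apply_not_mem hx1, zero_mul, zero_add]
        calc ind Z2 x * w0 x ≤ 1 * w0 x :=
              mul_le_mul_of_nonneg_right (ind_le_one _ _) (hw0nn x)
          _ = w0 x := one_mul _
    rw [map_add, h1, h2] at h3
    linarith
  rcases hor with h | h
  · exact ⟨_, h, hrad Q1 hQ1pos hT1⟩
  · exact ⟨_, h, hrad Q2 hQ2pos hT2⟩

/-- The core theorem. -/
theorem core [Infinite G] (W : Twist G) :
    ∃ D : (G →ᵇ ℝ) →L[ℝ] ℝ, D ≠ 0 ∧ ∀ X, W.box (W.box D X) D = 0 := by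
  obtain ⟨K, -, hK, hmin⟩ := exists_minimal (invCone_all W (NS G) (fun h hh s => NS_M W h hh s)
    exists_null_pos)
  obtain ⟨e, he⟩ := exists_ext hK
  by_cases hcase : ∀ Ψ : (G →ᵇ ℝ) →L[ℝ] ℝ, Pos Ψ → W.box e (W.box Ψ e) = 0
  · refine ⟨e, ?_, ?_⟩
    · intro h0
      have := he.2.1
      rw [h0] at this
      simp at this
    · intro X
      obtain ⟨X1, X2, hX1, hX2, hX⟩ := exists_diff_pos X
      rw [Twist.box_assoc, hX, Twist.sub_box, Twist.box_sub, hcase X1 hX1, hcase X2 hX2]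
      exact sub_self (G := (G →ᵇ ℝ) →L[ℝ] ℝ) _
  · push Not at hcase
    obtain ⟨Ψ, hΨ, hne⟩ := hcase
    exact caseII hK hmin he hΨ hne

end Pool.Agent.BeurlingBidual
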