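import Pool.Agent.BeurlingBidual.Select2

/-! The transfinite construction of the approximating measures. -/

set_option autoImplicit false
set_option linter.unusedSectionVars false
open scoped Topology BoundedContinuousFunction Cardinal Pointwise
open Filter

namespace Pool.Agent.BeurlingBidual

universe u v

variable {G : Type u} [Group G] [TopologicalSpace G] [DiscreteTopology G]

theorem small_coll [Infinite G] {ι : Type u} [LinearOrder ι] (hι : ∀ i : ι, #(Set.Iio i) < #G)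
    (S : ι → Finset G) (i : ι) (supp : ∀ j : ι, j < i → Finset G) :
    Small {t : G | ∃ (j : ι) (hj : j < i), ∃ s ∈ S i, ∃ s' ∈ S j, ∃ t' ∈ supp j hj,
      s * t = s' * t'} := by
  have h1 : Small (⋃ j : Set.Iio i, ((fun p : G × G × G => p.1⁻¹ * (p.2.1 * p.2.2)) ''
      ((S i : Set G) ×ˢ (S j : Set G) ×ˢ (supp j.1 j.2 : Set G)))) := by
    apply small_iUnion_finite (hι i)
    intro j
    apply Set.Finite.image
    exact (S i).finite_toSet.prod ((S j).finite_toSet.prod (supp j.1 j.2).finite_toSet)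
  refine h1.mono ?_
  rintro t ⟨j, hj, s, hs, s', hs', t', ht', heq⟩
  rw [Set.mem_iUnion]
  refine ⟨⟨j, hj⟩, ⟨(s, s', t'), ⟨hs, hs', ht'⟩, ?_⟩⟩
  show s⁻¹ * (s' * t') = t
  rw [← heq, inv_mul_cancel_left]

/-- The requirements on the measures chosen at one stage. -/
structure Step (W : Twist G) (K : Set ((G →ᵇ ℝ) →L[ℝ] ℝ)) (f : G → (G →ᵇ ℝ)) (B : Set G)
    (P : (G →ᵇ ℝ) →L[ℝ] ℝ) (v : G →ᵇ ℝ) (S : Finset G) (η : ℝ) (a b c : G →₀ ℝ) : Prop where
  a_nonneg : ∀ t, 0 ≤ a t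
  a_sum : (a.sum fun _ x => x) = 1
  a_supp : ∀ t ∈ a.support, t ∈ B
  a_coll : ∀ s ∈ S, ∀ s' ∈ S, ∀ t ∈ a.support, ∀ t' ∈ a.support, s * t = s' * t' → s = s'
  a_lim : ∀ F ∈ K, F 1 = 1 → ∀ s ∈ S, |a.sum fun t x => x * F (W.M t (f s))| ≤ η
  b_nonneg : ∀ t, 0 ≤ b t
  b_sum : (b.sum fun _ x => x) = P 1
  b_lim : ∀ s ∈ S, |(b.sum fun t x => x * W.M s v t) - P (W.M s v)| ≤ η
  c_nonneg : ∀ t, 0 ≤ c t
  c_sum : (c.sum fun _ x => x) = P 1
  c_lim : ∀ s ∈ S, |(c.sum fun t x => x * W.M s v t) - P (W.M s v)| ≤ η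
  bc_coll : ∀ s ∈ S, ∀ s' ∈ S, ∀ t ∈ b.support, ∀ t' ∈ c.support, s * t ≠ s' * t'

theorem exists_data [Infinite G] {W : Twist G} {K : Set ((G →ᵇ ℝ) →L[ℝ] ℝ)}
    (hK : InvCone W (NS G) K) (hmin : ∀ L ⊆ K, InvCone W (NS G) L → L = K)
    {e : (G →ᵇ ℝ) →L[ℝ] ℝ} (he : IsExt K e) {B : Set G} (hB : 0 < e (ind B))
    (f : G → (G →ᵇ ℝ)) (hf : ∀ s, e (f s) = 0) {P : (G →ᵇ ℝ) →L[ℝ] ℝ} (hP : Pos P)
    (hP0 : ∀ h ∈ NS G, P h = 0) (v : G →ᵇ ℝ)
    {ι : Type u} [LinearOrder ι] [WellFoundedLT ι] (hι : ∀ i : ι, #(Set.Iio i) < #G)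
    (S : ι → Finset G) (hS : ∀ i, (S i).Nonempty) (η : ι → ℝ) (hη : ∀ i, 0 < η i) :
    ∃ a b c : ι → (G →₀ ℝ), (∀ i, Step W K f B P v (S i) (η i) (a i) (b i) (c i)) ∧
      (∀ i j, j < i → ∀ s ∈ S i, ∀ s' ∈ S j, ∀ t ∈ (a i).support, ∀ t' ∈ (a j).support,
        s * t ≠ s' * t') ∧
      (∀ i j, j < i → ∀ s ∈ S i, ∀ s' ∈ S j, ∀ t ∈ (b i).support, ∀ t' ∈ (c j).support,
        s * t ≠ s' * t') ∧
      (∀ i j, j < i → ∀ s ∈ S i, ∀ s' ∈ S j, ∀ t ∈ (c i).support, ∀ t' ∈ (b j).support,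
        s * t ≠ s' * t') := by
  classical
  obtain ⟨F, hF⟩ := exists_rec (ι := ι) (β := (G →₀ ℝ) × (G →₀ ℝ) × (G →₀ ℝ))
    (fun i g x => Step W K f B P v (S i) (η i) x.1 x.2.1 x.2.2 ∧
      (∀ j (hj : j < i), ∀ s ∈ S i, ∀ s' ∈ S j, ∀ t ∈ x.1.support, ∀ t' ∈ (g j hj).1.support,
        s * t ≠ s' * t') ∧
      (∀ j (hj : j < i), ∀ s ∈ S i, ∀ s' ∈ S j, ∀ t ∈ x.2.1.support,
        ∀ t' ∈ (g j hj).2.2.support, s * t ≠ s' * t') ∧
      (∀ j (hj : j < i), ∀ s ∈ S i, ∀ s' ∈ S j, ∀ t ∈ x.2.2.support,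
        ∀ t' ∈ (g j hj).2.1.support, s * t ≠ s' * t')) (by
      intro i g
      -- the measure `a`
      have hE1 := small_coll hι S i (fun j hj => (g j hj).1.support)
      obtain ⟨A, hAB, hA, hAcoll⟩ := exists_class (fun h hh => hK.null e he.1 h hh) hB (S i) hE1
      obtain ⟨a, ha0, ha1, ha2, ha3⟩ := select_a hK hmin he hA (S i) (hS i) f hf (hη i)
      -- the measure `b`
      have hE2 := small_coll hι S i (fun j hj => (g j hj).2.2.support)
      obtain ⟨b, hb0, hb1, hb2, hb3⟩ := select_b hP hP0 (S i) (hS i) (fun s => W.M s v) hE2 (hη i)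
      -- the measure `c`
      have hE3 := small_coll hι S i (fun j hj => (g j hj).2.1.support)
      have hE4 : Small {t : G | ∃ s ∈ S i, ∃ s' ∈ S i, ∃ t' ∈ b.support, s' * t' = s * t} := by
        have h1 : ((fun p : G × G × G => p.1⁻¹ * (p.2.1 * p.2.2)) ''
            ((S i : Set G) ×ˢ (S i : Set G) ×ˢ (b.support : Set G))).Finite := by
          apply Set.Finite.image
          exact (S i).finite_toSet.prod ((S i).finite_toSet.prod b.support.finite_toSet)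
        refine (small_of_finite h1).mono ?_
        rintro t ⟨s, hs, s', hs', t', ht', heq⟩
        refine ⟨(s, s', t'), ⟨hs, hs', ht'⟩, ?_⟩
        show s⁻¹ * (s' * t') = t
        rw [heq, inv_mul_cancel_left]
      obtain ⟨c, hc0, hc1, hc2, hc3⟩ := select_b hP hP0 (S i) (hS i) (fun s => W.M s v)
        (hE3.union hE4) (hη i)
      refine ⟨(a, b, c), ⟨ha0, ha1, fun t ht => (hAB (ha2 t ht)).1, ?_, ha3, hb0, hb1, hb3, hc0,
        hc1, hc3, ?_⟩, ?_, ?_, ?_⟩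
      · intro s hs s' hs' t ht t' ht'
        exact hAcoll s hs s' hs' t (ha2 t ht) t' (ha2 t' ht')
      · intro s hs s' hs' t ht t' ht' heq
        exact hc2 t' ht' (Or.inr ⟨s', hs', s, hs, t, ht, heq⟩)
      · intro j hj s hs s' hs' t ht t' ht' heq
        exact (hAB (ha2 t ht)).2 ⟨j, hj, s, hs, s', hs', t', ht', heq⟩
      · intro j hj s hs s' hs' t ht t' ht' heq
        exact hb2 t ht ⟨j, hj, s, hs, s', hs', t', ht', heq⟩
      · intro j hj s hs s' hs' t ht t' ht' heq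
        exact hc2 t ht (Or.inl ⟨j, hj, s, hs, s', hs', t', ht', heq⟩))
  exact ⟨fun i => (F i).1, fun i => (F i).2.1, fun i => (F i).2.2, fun i => (hF i).1,
    fun i j hj => (hF i).2.1 j hj, fun i j hj => (hF i).2.2.1 j hj,
    fun i j hj => (hF i).2.2.2 j hj⟩

/-- an index set of the required type -/
theorem exists_index (G : Type u) [Group G] [Infinite G] :
    ∃ (ι : Type u) (_ : LinearOrder ι) (_ : WellFoundedLT ι) (_ : ι ≃ Finset G × ℕ),
      ∀ i : ι, #(Set.Iio i) < #G := by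
  have h1 : #(Finset G × ℕ) = #G := by
    rw [Cardinal.mk_prod, Cardinal.lift_uzero, Cardinal.mk_finset_of_infinite, Cardinal.mk_nat,
      Cardinal.lift_aleph0]
    exact Cardinal.mul_aleph0_eq (Cardinal.aleph0_le_mk G)
  have h2 : #((#G).ord.ToType) = #(Finset G × ℕ) := by
    rw [h1]; simp
  obtain ⟨φ⟩ := Cardinal.eq.1 h2
  refine ⟨(#G).ord.ToType, inferInstance, inferInstance, φ, fun i => ?_⟩
  simpa using Cardinal.mk_Iio_lt i (by simp)

end Pool.Agent.BeurlingBidual
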