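import Mathlib

/-! A finite minimax lemma, recursion along well-orders, and colourings of Cayley graphs. -/

set_option autoImplicit false
set_option linter.unusedSectionVars false
open scoped Topology Cardinal Pointwise
open Filter

namespace Pool.Agent.BeurlingBidual

universe u v w

/-- A minimax lemma: if every point of a compact convex set is mapped below `η` by one of the
functionals `f t`, then one convex combination of the `f t` is below `η` on the whole set. -/
theorem minimax {V : Type u} [AddCommGroup V] [Module ℝ V] [TopologicalSpace V] {T : Type v}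
    (f : T → V →ₗ[ℝ] ℝ) (hf : ∀ t, Continuous (f t)) {X : Set V} (hX : IsCompact X)
    (hXc : Convex ℝ X) (hXne : X.Nonempty) {η : ℝ} (h : ∀ x ∈ X, ∃ t, f t x < η) :
    ∃ a : T →₀ ℝ, (∀ t, 0 ≤ a t) ∧ (a.sum fun _ c => c) = 1 ∧
      ∀ x ∈ X, (a.sum fun t c => c * f t x) ≤ η := by
  classical
  obtain ⟨s, hs⟩ := hX.elim_finite_subcover (fun t => {x | f t x < η})
    (fun t => isOpen_lt (hf t) continuous_const) (by
      intro x hx
      obtain ⟨t, ht⟩ := h x hx
      exact Set.mem_iUnion.2 ⟨t, ht⟩)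
  set g : V →ₗ[ℝ] (s → ℝ) := LinearMap.pi fun t => f t with hg
  have hgc : Continuous g := continuous_pi fun t => hf t
  have hA : IsCompact (g '' X) := hX.image hgc
  have hAc : Convex ℝ (g '' X) := hXc.linear_image g
  set O : Set (s → ℝ) := {y | ∀ t, η ≤ y t} with hO
  have hOcl : IsClosed O := by
    have : O = ⋂ t, {y : s → ℝ | η ≤ y t} := by ext y; simp [hO]
    rw [this]
    exact isClosed_iInter fun t => isClosed_le continuous_const (continuous_apply t)
  have hOc : Convex ℝ O := by
    intro y hy z hz a b ha hb hab t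
    have h1 := mul_le_mul_of_nonneg_left (hy t) ha
    have h2 := mul_le_mul_of_nonneg_left (hz t) hb
    have h3 : (a • y + b • z) t = a * y t + b * z t := rfl
    rw [h3]
    have h4 : a * η + b * η = η := by rw [← add_mul, hab, one_mul]
    linarith
  have hdisj : Disjoint (g '' X) O := by
    rw [Set.disjoint_left]
    rintro _ ⟨x, hx, rfl⟩ hxO
    obtain ⟨t, ht⟩ := Set.mem_iUnion.1 (hs hx)
    obtain ⟨hts, htx⟩ := Set.mem_iUnion.1 ht
    have h1 := hxO ⟨t, hts⟩
    have h2 : g x ⟨t, hts⟩ = f t x := rfl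
    rw [h2] at h1
    exact absurd htx (not_lt.2 h1)
  obtain ⟨φ, u, v, hφ1, huv, hφ2⟩ := geometric_hahn_banach_compact_closed hAc hA hOc hOcl hdisj
  set wt : s → ℝ := fun t => φ (Pi.single t 1) with hwt
  have hφ : ∀ y : s → ℝ, φ y = ∑ t, y t * wt t := by
    intro y
    conv_lhs => rw [← Finset.univ_sum_single y]
    rw [map_sum]
    refine Finset.sum_congr rfl fun t _ => ?_
    have : (Pi.single t (y t) : s → ℝ) = y t • Pi.single t (1 : ℝ) := by
      rw [← Pi.single_smul, smul_eq_mul, mul_one]
    rw [this, map_smul, smul_eq_mul]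
  have hwt0 : ∀ t, 0 ≤ wt t := by
    intro t
    by_contra hneg
    rw [not_le] at hneg
    -- a far away point of `O`
    set c : ℝ := max 0 ((v - φ (fun _ => η)) / wt t) with hc
    have hy : (fun t' => η + (Pi.single t c : s → ℝ) t') ∈ O := by
      intro t'
      by_cases htt : t' = t
      · subst htt; simp [hc]
      · simp [htt]
    have h1 := hφ2 _ hy
    have h2 : φ (fun t' => η + (Pi.single t c : s → ℝ) t') = φ (fun _ => η) + c * wt t := by
      have : (fun t' => η + (Pi.single t c : s → ℝ) t') = (fun _ => η) + c • Pi.single t (1 : ℝ) := by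
        funext t'
        simp [Pi.single_apply]
      rw [this, map_add, map_smul, smul_eq_mul]
    rw [h2] at h1
    have h3 : c * wt t ≤ v - φ (fun _ => η) := by
      have h4 : (v - φ (fun _ => η)) / wt t ≤ c := le_max_right _ _
      have := mul_le_mul_of_nonpos_right h4 hneg.le
      rwa [div_mul_cancel₀ _ hneg.ne] at this
    linarith
  set Wt : ℝ := ∑ t, wt t with hWt
  have hWt0 : 0 ≤ Wt := Finset.sum_nonneg fun t _ => hwt0 t
  have hvη : v < η * Wt := by
    have h1 := hφ2 (fun _ => η) (fun _ => le_rfl)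
    rw [hφ] at h1
    rw [hWt, Finset.mul_sum]
    exact h1
  have hWtpos : 0 < Wt := by
    rcases eq_or_lt_of_le hWt0 with h0 | h0
    · exfalso
      have hz : ∀ t, wt t = 0 := fun t =>
        (Finset.sum_eq_zero_iff_of_nonneg (fun t _ => hwt0 t)).1 h0.symm t (Finset.mem_univ t)
      obtain ⟨x, hx⟩ := hXne
      have h1 := hφ1 (g x) ⟨x, hx, rfl⟩
      rw [hφ] at h1
      simp only [hz, mul_zero, Finset.sum_const_zero] at h1
      rw [← h0, mul_zero] at hvη
      linarith
    · exact h0
  refine ⟨Finsupp.onFinset s (fun t => if ht : t ∈ s then wt ⟨t, ht⟩ / Wt else 0) (by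
      intro t ht
      by_contra hts
      simp [hts] at ht), ?_, ?_, ?_⟩
  · intro t
    rw [Finsupp.onFinset_apply]
    split_ifs with ht
    · exact div_nonneg (hwt0 _) hWt0
    · exact le_rfl
  · rw [Finsupp.onFinset_sum _ (fun _ => rfl)]
    rw [← Finset.sum_coe_sort s]
    have : ∀ t : s, (if ht : (t : T) ∈ s then wt ⟨t, ht⟩ / Wt else 0) = wt t / Wt := by
      intro t
      rw [dif_pos t.2]
    rw [Finset.sum_congr rfl fun t _ => this t, ← Finset.sum_div, ← hWt, div_self hWtpos.ne']
  · intro x hx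
    rw [Finsupp.onFinset_sum _ (fun _ => by rw [zero_mul])]
    rw [← Finset.sum_coe_sort s]
    have : ∀ t : s, (if ht : (t : T) ∈ s then wt ⟨t, ht⟩ / Wt else 0) * f t x
        = (f t x * wt t) / Wt := by
      intro t
      rw [dif_pos t.2]
      ring
    rw [Finset.sum_congr rfl fun t _ => this t, ← Finset.sum_div]
    have h1 := hφ1 (g x) ⟨x, hx, rfl⟩
    rw [hφ] at h1
    rw [div_le_iff₀ hWtpos]
    have h2 : ∑ t : s, f t x * wt t = ∑ t : s, g x t * wt t := rfl
    rw [h2]
    linarith

/-- Construction by recursion along a well-founded order. -/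
theorem exists_rec {ι : Type u} {β : Type v} [LinearOrder ι] [WellFoundedLT ι]
    (P : ∀ i : ι, (∀ j : ι, j < i → β) → β → Prop)
    (h : ∀ (i : ι) (f : ∀ j : ι, j < i → β), ∃ b, P i f b) :
    ∃ F : ι → β, ∀ i, P i (fun j _ => F j) (F i) := by
  choose b hb using h
  have wf : WellFounded (fun a b : ι => a < b) := wellFounded_lt
  refine ⟨wf.fix b, fun i => ?_⟩
  have h1 : wf.fix b i = b i (fun j _ => wf.fix b j) := wf.fix_eq b i
  rw [h1]
  exact hb i _

theorem exists_coloring_aux {G : Type u} [Group G] [LinearOrder G] [WellFoundedLT G]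
    (Γ : Finset G) (hinv : ∀ g ∈ Γ, g⁻¹ ∈ Γ) (h1 : (1 : G) ∉ Γ) :
    ∃ (n : ℕ) (c : G → Fin n), ∀ g ∈ Γ, ∀ t, c (g * t) ≠ c t := by
  obtain ⟨c, hc⟩ := exists_rec (ι := G) (β := Fin (Γ.card + 1))
    (fun t f b => ∀ u (hu : u < t), (∃ g ∈ Γ, u = g * t) → f u hu ≠ b) (by
      intro t f
      set bad : Finset (Fin (Γ.card + 1)) :=
        Γ.image (fun g => if hu : g * t < t then f (g * t) hu else 0) with hbad
      have hcard : bad.card < Fintype.card (Fin (Γ.card + 1)) := by
        rw [Fintype.card_fin]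
        exact Nat.lt_succ_of_le Finset.card_image_le
      obtain ⟨b, hb⟩ : ∃ b, b ∉ bad := by
        by_contra hcon
        push Not at hcon
        have : bad = Finset.univ := Finset.eq_univ_iff_forall.2 hcon
        rw [this, Finset.card_univ] at hcard
        exact lt_irrefl _ hcard
      refine ⟨b, ?_⟩
      rintro u hu ⟨g, hg, rfl⟩ heq
      apply hb
      rw [hbad, Finset.mem_image]
      exact ⟨g, hg, by rw [dif_pos hu, heq]⟩)
  refine ⟨Γ.card + 1, c, ?_⟩
  intro g hg t
  have hne : g * t ≠ t := by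
    intro h
    have : g = 1 := mul_eq_right.1 h
    rw [this] at hg
    exact h1 hg
  rcases lt_or_gt_of_ne hne with h | h
  · exact hc t (g * t) h ⟨g, hg, rfl⟩
  · have := hc (g * t) t h ⟨g⁻¹, hinv g hg, by group⟩
    exact this.symm

/-- Cayley graphs with respect to finite sets have finite proper colourings. -/
theorem exists_coloring {G : Type u} [Group G] (Γ : Finset G) (hinv : ∀ g ∈ Γ, g⁻¹ ∈ Γ)
    (h1 : (1 : G) ∉ Γ) :
    ∃ (n : ℕ) (c : G → Fin n), ∀ g ∈ Γ, ∀ t, c (g * t) ≠ c t := by
  obtain ⟨lo, hwo⟩ := exists_wellFoundedLT G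
  exact exists_coloring_aux Γ hinv h1

end Pool.Agent.BeurlingBidual
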