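import Pool.Agent.BeurlingBidual.Small
import Pool.Agent.BeurlingBidual.Minimax

/-! Selection lemmas: finitely supported measures with prescribed approximate behaviour. -/

set_option autoImplicit false
set_option linter.unusedSectionVars false
open scoped Topology BoundedContinuousFunction Cardinal Pointwise
open Filter

namespace Pool.Agent.BeurlingBidual

universe u v

/-- Version of `minimax` with the functionals restricted to a subset of the index type. -/
theorem minimax_on {V : Type u} [AddCommGroup V] [Module ℝ V] [TopologicalSpace V] {T : Type v}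
    (f : T → V →ₗ[ℝ] ℝ) (hf : ∀ t, Continuous (f t)) {X : Set V} (hX : IsCompact X)
    (hXc : Convex ℝ X) (hXne : X.Nonempty) {η : ℝ} (A : Set T)
    (h : ∀ x ∈ X, ∃ t ∈ A, f t x < η) :
    ∃ a : T →₀ ℝ, (∀ t, 0 ≤ a t) ∧ (a.sum fun _ c => c) = 1 ∧ (∀ t ∈ a.support, t ∈ A) ∧
      ∀ x ∈ X, (a.sum fun t c => c * f t x) ≤ η := by
  obtain ⟨a, ha0, ha1, ha2⟩ := minimax (fun t : A => f t) (fun t => hf t) hX hXc hXne (η := η)
    (fun x hx => by
      obtain ⟨t, ht, htx⟩ := h x hx
      exact ⟨⟨t, ht⟩, htx⟩)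
  classical
  refine ⟨a.embDomain (Function.Embedding.subtype _), ?_, ?_, ?_, ?_⟩
  · intro t
    by_cases ht : t ∈ A
    · have := Finsupp.embDomain_apply_self (Function.Embedding.subtype (· ∈ A)) a ⟨t, ht⟩
      have h2 : (Function.Embedding.subtype (· ∈ A)) ⟨t, ht⟩ = t := rfl
      rw [h2] at this
      rw [this]
      exact ha0 _
    · rw [Finsupp.embDomain_of_notMem_range]
      rintro ⟨x, hx⟩
      exact ht (hx ▸ x.2)
  · rw [Finsupp.sum_embDomain]
    exact ha1
  · intro t ht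
    rw [Finsupp.support_embDomain, Finset.mem_map] at ht
    obtain ⟨x, -, rfl⟩ := ht
    exact x.2
  · intro x hx
    rw [Finsupp.sum_embDomain]
    exact ha2 x hx

variable {G : Type u} [Group G] [TopologicalSpace G] [DiscreteTopology G]

/-- the restriction of a functional to a set -/
noncomputable def rest (A : Set G) (F : (G →ᵇ ℝ) →L[ℝ] ℝ) : (G →ᵇ ℝ) →L[ℝ] ℝ :=
  F ∘L (ContinuousLinearMap.mul ℝ (G →ᵇ ℝ) (ind A))

@[simp] theorem rest_apply (A : Set G) (F : (G →ᵇ ℝ) →L[ℝ] ℝ) (h : G →ᵇ ℝ) :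
    rest A F h = F (ind A * h) := rfl

theorem rest_pos {F : (G →ᵇ ℝ) →L[ℝ] ℝ} (hF : Pos F) (A : Set G) : Pos (rest A F) := by
  intro h hh
  apply hF
  intro t
  exact mul_nonneg (ind_nonneg A t) (hh t)

theorem ind_add_compl (A : Set G) : ind A + ind Aᶜ = (1 : G →ᵇ ℝ) := by
  ext t
  rw [BoundedContinuousFunction.coe_add, Pi.add_apply]
  by_cases h : t ∈ A
  · rw [ind_apply_mem h, ind_apply_not_mem (A := Aᶜ) (by simpa using h)]; simp
  · rw [ind_apply_not_mem h, ind_apply_mem (A := Aᶜ) h]; simp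

theorem rest_add_compl (A : Set G) (F : (G →ᵇ ℝ) →L[ℝ] ℝ) : rest A F + rest Aᶜ F = F := by
  ext h
  show F (ind A * h) + F (ind Aᶜ * h) = F h
  rw [← map_add, ← add_mul, ind_add_compl, one_mul]

variable {W : Twist G} {N : Set (G →ᵇ ℝ)} {K : Set ((G →ᵇ ℝ) →L[ℝ] ℝ)}

theorem rigid_rest (hK : InvCone W N K) (hmin : ∀ L ⊆ K, InvCone W N L → L = K)
    {e : (G →ᵇ ℝ) →L[ℝ] ℝ} (he : IsExt K e) (A : Set G) {F : (G →ᵇ ℝ) →L[ℝ] ℝ} (hF : F ∈ K) :
    W.box (rest A e) F = (W.box (rest A e) F 1) • e := by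
  apply he.2.2 _ (hK.box_mem (rest_pos (hK.pos e he.1) A) hF) _
    (hK.box_mem (rest_pos (hK.pos e he.1) Aᶜ) hF) (W.box e F 1)
  rw [← Twist.add_box, rest_add_compl]
  exact rigid hK hmin he hF

/-- evaluation of a weak functional at a point as a linear map -/
noncomputable def evLM (h : G →ᵇ ℝ) : WeakDual ℝ (G →ᵇ ℝ) →ₗ[ℝ] ℝ where
  toFun F := F h
  map_add' _ _ := rfl
  map_smul' _ _ := rfl

theorem evLM_continuous (h : G →ᵇ ℝ) : Continuous (evLM h) := WeakDual.eval_continuous h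

theorem select_a (hK : InvCone W N K) (hmin : ∀ L ⊆ K, InvCone W N L → L = K)
    {e : (G →ᵇ ℝ) →L[ℝ] ℝ} (he : IsExt K e) {A : Set G} (hA : 0 < e (ind A)) (S : Finset G)
    (hS : S.Nonempty)
    (f : G → (G →ᵇ ℝ)) (hf : ∀ s, e (f s) = 0) {η : ℝ} (hη : 0 < η) :
    ∃ a : G →₀ ℝ, (∀ t, 0 ≤ a t) ∧ (a.sum fun _ c => c) = 1 ∧ (∀ t ∈ a.support, t ∈ A) ∧
      ∀ F ∈ K, F 1 = 1 → ∀ s ∈ S, |a.sum fun t c => c * F (W.M t (f s))| ≤ η := by
  classical
  set K' : Set (WeakDual ℝ (G →ᵇ ℝ)) :=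
    (fun F : WeakDual ℝ (G →ᵇ ℝ) => (WeakDual.toStrongDual F : (G →ᵇ ℝ) →L[ℝ] ℝ)) ⁻¹' K with hK'
  have hKcl : IsClosed K' := hK.closed
  have hK0 : (0 : WeakDual ℝ (G →ᵇ ℝ)) ∈ K' := hK.zero
  set X : Set ((S × Bool) → WeakDual ℝ (G →ᵇ ℝ)) :=
    {x | (∀ j, x j ∈ K') ∧ ∑ j, (x j) 1 = 1} with hX
  set Lf : G → ((S × Bool) → WeakDual ℝ (G →ᵇ ℝ)) →ₗ[ℝ] ℝ := fun t =>
    ∑ s : S, (evLM (W.M t (f s)) ∘ₗ LinearMap.proj (s, true) -
      evLM (W.M t (f s)) ∘ₗ LinearMap.proj (s, false)) with hLf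
  have hLfa : ∀ t x, Lf t x = ∑ s : S, ((x (s, true)) (W.M t (f s)) - (x (s, false)) (W.M t (f s))) := by
    intro t x
    rw [hLf]
    simp only [LinearMap.sum_apply, LinearMap.sub_apply, LinearMap.comp_apply, LinearMap.proj_apply]
    rfl
  have hLfc : ∀ t, Continuous (Lf t) := by
    intro t
    have : (Lf t : ((S × Bool) → WeakDual ℝ (G →ᵇ ℝ)) → ℝ) = fun x =>
        ∑ s : S, ((x (s, true)) (W.M t (f s)) - (x (s, false)) (W.M t (f s))) := by
      funext x; exact hLfa t x
    rw [this]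
    refine continuous_finsetSum _ fun s _ => ?_
    exact ((WeakDual.eval_continuous _).comp (continuous_apply (s, true))).sub
      ((WeakDual.eval_continuous _).comp (continuous_apply (s, false)))
  have hXcomp : IsCompact X := by
    have h1 : IsCompact ((fun F : WeakDual ℝ (G →ᵇ ℝ) =>
        (WeakDual.toStrongDual F : (G →ᵇ ℝ) →L[ℝ] ℝ)) ⁻¹' (K ∩ {F | F 1 ≤ 1})) := by
      refine wcompact (hK.closed.inter ?_) (C := 1) ?_
      · unfold WClosed
        exact isClosed_le (WeakDual.eval_continuous 1) continuous_const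
      · intro F hF
        exact (hK.pos F hF.1).norm_le_of_one hF.2
    have h2 := isCompact_univ_pi (fun _ : S × Bool => h1)
    refine h2.of_isClosed_subset ?_ ?_
    · have : X = (⋂ j, (fun x : (S × Bool) → WeakDual ℝ (G →ᵇ ℝ) => x j) ⁻¹' K') ∩
          {x | ∑ j, (x j) 1 = 1} := by
        ext x; simp [hX]
      rw [this]
      refine IsClosed.inter (isClosed_iInter fun j => hKcl.preimage (continuous_apply j)) ?_
      refine isClosed_eq (continuous_finsetSum _ fun j _ => ?_) continuous_const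
      exact (WeakDual.eval_continuous _).comp (continuous_apply j)
    · rintro x ⟨hx1, hx2⟩ j -
      refine ⟨hx1 j, ?_⟩
      show (x j) 1 ≤ 1
      rw [← hx2]
      exact Finset.single_le_sum (f := fun j => (x j) (1 : G →ᵇ ℝ))
        (fun j _ => (hK.pos _ (hx1 j)).one_nonneg) (Finset.mem_univ j)
  have hXconv : Convex ℝ X := by
    rintro x ⟨hx1, hx2⟩ y ⟨hy1, hy2⟩ a b ha hb hab
    refine ⟨fun j => ?_, ?_⟩
    · exact hK.add _ (hK.smul _ (hx1 j) a ha) _ (hK.smul _ (hy1 j) b hb)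
    · have : ∀ j, ((a • x + b • y) j) (1 : G →ᵇ ℝ) = a * (x j) 1 + b * (y j) 1 := fun j => rfl
      rw [Finset.sum_congr rfl fun j _ => this j, Finset.sum_add_distrib, ← Finset.mul_sum,
        ← Finset.mul_sum, hx2, hy2, mul_one, mul_one, hab]
  -- points of `X` supported at one index
  have hpt : ∀ F ∈ K, F 1 = 1 → ∀ j : S × Bool,
      (Pi.single j (StrongDual.toWeakDual F) : (S × Bool) → WeakDual ℝ (G →ᵇ ℝ)) ∈ X := by
    intro F hF hF1 j
    refine ⟨fun j' => ?_, ?_⟩
    · by_cases h : j' = j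
      · subst h; rw [Pi.single_eq_same]; exact hF
      · rw [Pi.single_eq_of_ne h]; exact hK0
    · rw [Finset.sum_eq_single j]
      · rw [Pi.single_eq_same]; exact hF1
      · intro j' _ h; rw [Pi.single_eq_of_ne h]; rfl
      · intro h; exact absurd (Finset.mem_univ _) h
  have hXne : X.Nonempty := by
    obtain ⟨F, hF, hF1⟩ := hK.ne
    obtain ⟨s, hs⟩ := hS
    exact ⟨_, hpt F hF hF1 (⟨s, hs⟩, true)⟩
  obtain ⟨a, ha0, ha1, ha2, ha3⟩ := minimax_on Lf hLfc hXcomp hXconv hXne (η := η) A (by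
    rintro x ⟨hx1, hx2⟩
    by_contra hcon
    push Not at hcon
    set H : G →ᵇ ℝ := ∑ s : S, (W.T (WeakDual.toStrongDual (x (s, true))) (f s) -
      W.T (WeakDual.toStrongDual (x (s, false))) (f s)) with hH
    have hHt : ∀ t, H t = Lf t x := by
      intro t
      rw [hLfa, hH, BoundedContinuousFunction.coe_sum, Finset.sum_apply]
      rfl
    have h1 : e (ind A * H) = 0 := by
      have h2 : e (ind A * H) = rest A e H := rfl
      rw [h2, hH, map_sum]
      apply Finset.sum_eq_zero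
      intro s _
      rw [map_sub]
      have h3 : ∀ b : Bool, rest A e (W.T (WeakDual.toStrongDual (x (s, b))) (f s)) = 0 := by
        intro b
        have h4 : rest A e (W.T (WeakDual.toStrongDual (x (s, b))) (f s)) =
          W.box (rest A e) (WeakDual.toStrongDual (x (s, b))) (f s) := rfl
        have h5 : (WeakDual.toStrongDual (x (s, b)) : (G →ᵇ ℝ) →L[ℝ] ℝ) ∈ K := hx1 (s, b)
        rw [h4, rigid_rest hK hmin he A h5]
        show _ * e (f s) = 0
        rw [hf, mul_zero]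
      rw [h3, h3, sub_zero]
    have h2 : e (η • ind A) ≤ e (ind A * H) := by
      apply (hK.pos e he.1).mono
      intro t
      show η * ind A t ≤ ind A t * H t
      by_cases ht : t ∈ A
      · rw [ind_apply_mem ht, mul_one, one_mul, hHt]
        exact hcon t ht
      · rw [ind_apply_not_mem ht, mul_zero, zero_mul]
    rw [h1, map_smul, smul_eq_mul] at h2
    have := mul_pos hη hA
    linarith)
  refine ⟨a, ha0, ha1, ha2, ?_⟩
  intro F hF hF1 s hs
  have hval : ∀ (b : Bool) (t : G),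
      Lf t (Pi.single ((⟨s, hs⟩ : S), b) (StrongDual.toWeakDual F)) =
        (if b then 1 else -1) * F (W.M t (f s)) := by
    intro b t
    rw [hLfa, Finset.sum_eq_single ⟨s, hs⟩]
    · cases b
      · have h1 : ((⟨s, hs⟩ : S), true) ≠ ((⟨s, hs⟩ : S), false) := by simp
        rw [Pi.single_eq_of_ne h1, Pi.single_eq_same]
        show (0 : ℝ) - F (W.M t (f s)) = _
        simp
      · have h1 : ((⟨s, hs⟩ : S), false) ≠ ((⟨s, hs⟩ : S), true) := by simp
        rw [Pi.single_eq_of_ne h1, Pi.single_eq_same]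
        show F (W.M t (f s)) - (0 : ℝ) = _
        simp
    · intro s' _ hne
      have h1 : ∀ b', (s', b') ≠ ((⟨s, hs⟩ : S), b) := by
        intro b' h
        exact hne (congrArg Prod.fst h)
      rw [Pi.single_eq_of_ne (h1 true), Pi.single_eq_of_ne (h1 false)]
      exact sub_self _
    · intro h; exact absurd (Finset.mem_univ _) h
  rw [abs_le]
  constructor
  · have h1 := ha3 _ (hpt F hF hF1 (⟨s, hs⟩, false))
    simp only [hval, Bool.false_eq_true, if_false] at h1
    have h2 : (a.sum fun t c => c * (-1 * F (W.M t (f s)))) =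
        -(a.sum fun t c => c * F (W.M t (f s))) := by
      unfold Finsupp.sum
      rw [← Finset.sum_neg_distrib]
      exact Finset.sum_congr rfl fun t _ => by ring
    rw [h2] at h1
    linarith
  · have h1 := ha3 _ (hpt F hF hF1 (⟨s, hs⟩, true))
    simp only [hval, if_true] at h1
    have h2 : (a.sum fun t c => c * (1 * F (W.M t (f s)))) =
        (a.sum fun t c => c * F (W.M t (f s))) := by
      simp only [one_mul]
    rw [h2] at h1
    exact h1

end Pool.Agent.BeurlingBidual
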