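import Pool.Agent.BeurlingBidual.Select

/-! Selection lemmas, part two. -/

set_option autoImplicit false
set_option linter.unusedSectionVars false
open scoped Topology BoundedContinuousFunction Cardinal Pointwise
open Filter

namespace Pool.Agent.BeurlingBidual

universe u v

variable {G : Type u} [Group G] [TopologicalSpace G] [DiscreteTopology G]

theorem ind_sdiff (B E : Set G) : ind B = ind (B \ E) + ind (B ∩ E) := by
  ext t
  rw [BoundedContinuousFunction.coe_add, Pi.add_apply]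
  by_cases hB : t ∈ B
  · by_cases hE : t ∈ E
    · rw [ind_apply_mem hB, ind_apply_not_mem (A := B \ E) (fun h => h.2 hE),
        ind_apply_mem (A := B ∩ E) ⟨hB, hE⟩, zero_add]
    · rw [ind_apply_mem hB, ind_apply_mem (A := B \ E) ⟨hB, hE⟩,
        ind_apply_not_mem (A := B ∩ E) (fun h => hE h.2), add_zero]
  · rw [ind_apply_not_mem hB, ind_apply_not_mem (A := B \ E) (fun h => hB h.1),
      ind_apply_not_mem (A := B ∩ E) (fun h => hB h.1), zero_add]

theorem ind_mem_NS [Infinite G] {E : Set G} (hE : Small E) : ind E ∈ NS G := by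
  refine Small.mono hE ?_
  intro t ht
  by_contra h
  exact ht (ind_apply_not_mem h)

theorem exists_class [Infinite G] {e : (G →ᵇ ℝ) →L[ℝ] ℝ}
    (he0 : ∀ h ∈ NS G, e h = 0) {B : Set G} (hB : 0 < e (ind B)) (S : Finset G) {E : Set G}
    (hE : Small E) :
    ∃ A ⊆ B \ E, 0 < e (ind A) ∧
      ∀ s ∈ S, ∀ s' ∈ S, ∀ t ∈ A, ∀ t' ∈ A, s * t = s' * t' → s = s' := by
  classical
  set Γ : Finset G := (S⁻¹ * S).erase 1 with hΓ
  obtain ⟨n, c, hc⟩ := exists_coloring Γ (by
    intro g hg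
    rw [hΓ, Finset.mem_erase, Finset.mem_mul] at hg ⊢
    obtain ⟨hg1, x, hx, y, hy, rfl⟩ := hg
    refine ⟨inv_ne_one.2 hg1, y⁻¹, Finset.inv_mem_inv hy, x⁻¹, ?_, by group⟩
    exact Finset.mem_inv'.1 hx) (by simp [hΓ])
  have h1 : e (ind (B \ E)) = e (ind B) := by
    have h2 : e (ind (B ∩ E)) = 0 := he0 _ (ind_mem_NS (hE.mono Set.inter_subset_right))
    rw [ind_sdiff B E, map_add, h2, add_zero]
  have h2 : ind (B \ E) = ∑ k : Fin n, ind ((B \ E) ∩ c ⁻¹' {k}) := by
    ext t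
    rw [BoundedContinuousFunction.coe_sum, Finset.sum_apply]
    by_cases ht : t ∈ B \ E
    · rw [ind_apply_mem ht, Finset.sum_eq_single (c t)]
      · rw [ind_apply_mem (A := (B \ E) ∩ c ⁻¹' {c t}) ⟨ht, rfl⟩]
      · intro k _ hk
        exact ind_apply_not_mem (fun h => hk h.2.symm)
      · intro h; exact absurd (Finset.mem_univ _) h
    · rw [ind_apply_not_mem ht, Finset.sum_eq_zero]
      intro k _
      exact ind_apply_not_mem (fun h => ht h.1)
  have h3 : ∃ k : Fin n, 0 < e (ind ((B \ E) ∩ c ⁻¹' {k})) := by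
    by_contra hcon
    push Not at hcon
    have : e (ind (B \ E)) ≤ 0 := by
      rw [h2, map_sum]
      exact Finset.sum_nonpos fun k _ => hcon k
    rw [h1] at this
    linarith
  obtain ⟨k, hk⟩ := h3
  refine ⟨(B \ E) ∩ c ⁻¹' {k}, Set.inter_subset_left, hk, ?_⟩
  intro s hs s' hs' t ht t' ht' heq
  by_contra hne
  have h4 : s'⁻¹ * s ∈ Γ := by
    rw [hΓ, Finset.mem_erase]
    refine ⟨?_, Finset.mul_mem_mul (Finset.inv_mem_inv hs') hs⟩
    intro h
    apply hne
    rw [inv_mul_eq_one] at h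
    exact h.symm
  apply hc _ h4 t
  have h5 : s'⁻¹ * s * t = t' := by
    rw [mul_assoc, heq, inv_mul_cancel_left]
  rw [h5]
  have h6 : c t = k := ht.2
  have h7 : c t' = k := ht'.2
  rw [h6, h7]

theorem select_b [Infinite G] {P : (G →ᵇ ℝ) →L[ℝ] ℝ} (hP : Pos P)
    (hP0 : ∀ h ∈ NS G, P h = 0) (S : Finset G) (hS : S.Nonempty) (f : G → (G →ᵇ ℝ)) {E : Set G}
    (hE : Small E) {η : ℝ} (hη : 0 < η) :
    ∃ b : G →₀ ℝ, (∀ t, 0 ≤ b t) ∧ (b.sum fun _ c => c) = P 1 ∧ (∀ t ∈ b.support, t ∉ E) ∧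
      ∀ s ∈ S, |(b.sum fun t c => c * f s t) - P (f s)| ≤ η := by
  classical
  rcases eq_or_lt_of_le hP.one_nonneg with h0 | hp
  · have hPz : P = 0 := hP.eq_zero h0.symm
    refine ⟨0, fun t => le_rfl, by simp [← h0], by simp, fun s _ => ?_⟩
    simp [hPz, hη.le]
  set p : ℝ := P 1 with hpdef
  have hSn : Nonempty S := hS.to_subtype
  set cf : S → ℝ := fun s => P (f s) / p with hcf
  set Lf : G → ((S × Bool) → ℝ) →ₗ[ℝ] ℝ := fun t =>
    ∑ s : S, (f s t - cf s) • ((LinearMap.proj (s, true) : ((S × Bool) → ℝ) →ₗ[ℝ] ℝ) -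
      LinearMap.proj (s, false)) with hLf
  have hLfa : ∀ t x, Lf t x = ∑ s : S, (f s t - cf s) * (x (s, true) - x (s, false)) := by
    intro t x
    rw [hLf]
    simp only [LinearMap.sum_apply, LinearMap.sub_apply, LinearMap.smul_apply,
      LinearMap.proj_apply, smul_eq_mul]
  obtain ⟨a, ha0, ha1, ha2, ha3⟩ := minimax_on Lf (fun t => (Lf t).continuous_of_finiteDimensional)
    (isCompact_stdSimplex (𝕜 := ℝ) (S × Bool)) (convex_stdSimplex ℝ (S × Bool))
    ⟨_, single_mem_stdSimplex ℝ (Classical.arbitrary (S × Bool))⟩ (η := η / p) Eᶜ (by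
    intro x hx
    by_contra hcon
    push Not at hcon
    set H : G →ᵇ ℝ := ∑ s : S, (x (s, true) - x (s, false)) • (f s - cf s • 1) with hH
    have hHt : ∀ t, H t = Lf t x := by
      intro t
      rw [hLfa, hH, BoundedContinuousFunction.coe_sum, Finset.sum_apply]
      refine Finset.sum_congr rfl fun s _ => ?_
      show (x (s, true) - x (s, false)) * (f s t - cf s * 1) = _
      ring
    have h1 : P H = 0 := by
      rw [hH, map_sum]
      apply Finset.sum_eq_zero
      intro s _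
      rw [map_smul, map_sub, map_smul, smul_eq_mul, smul_eq_mul, hcf]
      show (x (s, true) - x (s, false)) * (P (f s) - P (f s) / p * p) = 0
      rw [div_mul_cancel₀ _ hp.ne', sub_self, mul_zero]
    have h2 : P (ind E * H) = 0 := by
      apply hP0
      refine Small.mono hE ?_
      intro t ht
      by_contra h
      apply ht
      rw [BoundedContinuousFunction.coe_mul, Pi.mul_apply, ind_apply_not_mem h, zero_mul]
    have h3 : P ((η / p) • ind Eᶜ) ≤ P (ind Eᶜ * H) := by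
      apply hP.mono
      intro t
      show (η / p) * ind Eᶜ t ≤ ind Eᶜ t * H t
      by_cases ht : t ∈ Eᶜ
      · rw [ind_apply_mem ht, mul_one, one_mul, hHt]
        exact hcon t ht
      · rw [ind_apply_not_mem ht, mul_zero, zero_mul]
    have h4 : P (ind E * H) + P (ind Eᶜ * H) = P H := by
      rw [← map_add, ← add_mul, ind_add_compl, one_mul]
    have h5 : P (ind Eᶜ) = p := by
      have h6 : P (ind E) = 0 := hP0 _ (ind_mem_NS hE)
      have h7 : P (ind E) + P (ind Eᶜ) = p := by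
        rw [← map_add, ind_add_compl]
      rw [h6, zero_add] at h7
      exact h7
    rw [h1, h2, zero_add] at h4
    rw [h4, map_smul, smul_eq_mul, h5, div_mul_cancel₀ _ hp.ne'] at h3
    linarith)
  have hLfs : ∀ (s : G) (hs : s ∈ S) (b : Bool) (t : G),
      Lf t (Pi.single ((⟨s, hs⟩ : S), b) 1) = (if b then 1 else -1) * (f s t - cf ⟨s, hs⟩) := by
    intro s hs b t
    rw [hLfa, Finset.sum_eq_single ⟨s, hs⟩]
    · cases b
      · have h1 : ((⟨s, hs⟩ : S), true) ≠ ((⟨s, hs⟩ : S), false) := by simp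
        rw [Pi.single_eq_of_ne h1, Pi.single_eq_same]
        simp
      · have h1 : ((⟨s, hs⟩ : S), false) ≠ ((⟨s, hs⟩ : S), true) := by simp
        rw [Pi.single_eq_of_ne h1, Pi.single_eq_same]
        simp
    · intro s' _ hne
      have h1 : ∀ b', (s', b') ≠ ((⟨s, hs⟩ : S), b) := by
        intro b' h
        exact hne (congrArg Prod.fst h)
      rw [Pi.single_eq_of_ne (h1 true), Pi.single_eq_of_ne (h1 false)]
      simp
    · intro h; exact absurd (Finset.mem_univ _) h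
  refine ⟨p • a, ?_, ?_, ?_, ?_⟩
  · intro t
    exact mul_nonneg hp.le (ha0 t)
  · rw [Finsupp.sum_smul_index (by simp), ← Finsupp.mul_sum, ha1, mul_one]
  · intro t ht
    exact ha2 t (Finsupp.support_smul ht)
  · intro s hs
    have hsum : ((p • a).sum fun t c => c * f s t) - P (f s) =
        p * (a.sum fun t c => c * (f s t - cf ⟨s, hs⟩)) := by
      rw [Finsupp.sum_smul_index (by simp)]
      have h1 : (a.sum fun t c => c * (f s t - cf ⟨s, hs⟩)) =
          (a.sum fun t c => c * f s t) - (a.sum fun _ c => c) * cf ⟨s, hs⟩ := by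
        unfold Finsupp.sum
        rw [Finset.sum_mul, ← Finset.sum_sub_distrib]
        exact Finset.sum_congr rfl fun t _ => by ring
      rw [h1, ha1, one_mul, mul_sub]
      have h2 : p * cf ⟨s, hs⟩ = P (f s) := by
        rw [hcf]
        show p * (P (f s) / p) = P (f s)
        rw [mul_div_cancel₀ _ hp.ne']
      rw [h2]
      congr 1
      unfold Finsupp.sum
      rw [Finset.mul_sum]
      exact Finset.sum_congr rfl fun t _ => by ring
    have hup : (a.sum fun t c => c * (f s t - cf ⟨s, hs⟩)) ≤ η / p := by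
      have h1 := ha3 _ (single_mem_stdSimplex ℝ ((⟨s, hs⟩ : S), true))
      simp only [hLfs, if_true, one_mul] at h1
      exact h1
    have hlow : -(a.sum fun t c => c * (f s t - cf ⟨s, hs⟩)) ≤ η / p := by
      have h1 := ha3 _ (single_mem_stdSimplex ℝ ((⟨s, hs⟩ : S), false))
      simp only [hLfs, Bool.false_eq_true, if_false] at h1
      have h2 : (a.sum fun t c => c * (-1 * (f s t - cf ⟨s, hs⟩))) =
          -(a.sum fun t c => c * (f s t - cf ⟨s, hs⟩)) := by
        unfold Finsupp.sum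
        rw [← Finset.sum_neg_distrib]
        exact Finset.sum_congr rfl fun t _ => by ring
      rw [h2] at h1
      exact h1
    rw [hsum, abs_mul, abs_of_pos hp]
    have h3 : |a.sum fun t c => c * (f s t - cf ⟨s, hs⟩)| ≤ η / p := by
      rw [abs_le]
      constructor <;> linarith
    calc p * |a.sum fun t c => c * (f s t - cf ⟨s, hs⟩)| ≤ p * (η / p) :=
          mul_le_mul_of_nonneg_left h3 hp.le
      _ = η := mul_div_cancel₀ _ hp.ne'

/-- Every functional is a difference of positive functionals. -/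
theorem exists_diff_pos (X : (G →ᵇ ℝ) →L[ℝ] ℝ) :
    ∃ P Q : (G →ᵇ ℝ) →L[ℝ] ℝ, Pos P ∧ Pos Q ∧ X = P - Q := by
  set C : ℝ := ‖X‖ with hC
  set Kp : Set ((G →ᵇ ℝ) →L[ℝ] ℝ) := {F | Pos F ∧ F 1 ≤ C} with hKp
  have hcl : WClosed Kp := by
    have h1 : Kp = (⋂ h : {h : G →ᵇ ℝ // ∀ t, 0 ≤ h t}, {F : (G →ᵇ ℝ) →L[ℝ] ℝ | 0 ≤ F h}) ∩
        {F : (G →ᵇ ℝ) →L[ℝ] ℝ | F 1 ≤ C} := by
      ext F
      simp [hKp, Pos]
    rw [h1]
    refine (wclosed_iInter fun h => wclosed_nonneg _).inter ?_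
    unfold WClosed
    exact isClosed_le (WeakDual.eval_continuous 1) continuous_const
  have hcomp := wcompact hcl (C := C) (fun F hF => hF.1.norm_le_of_one hF.2)
  set K' : Set (WeakDual ℝ (G →ᵇ ℝ)) :=
    (fun F : WeakDual ℝ (G →ᵇ ℝ) => (WeakDual.toStrongDual F : (G →ᵇ ℝ) →L[ℝ] ℝ)) ⁻¹' Kp with hK'
  set D : Set (WeakDual ℝ (G →ᵇ ℝ)) := (fun p : WeakDual ℝ (G →ᵇ ℝ) × WeakDual ℝ (G →ᵇ ℝ) =>
    p.1 - p.2) '' (K' ×ˢ K') with hD
  have hDcont : Continuous (fun p : WeakDual ℝ (G →ᵇ ℝ) × WeakDual ℝ (G →ᵇ ℝ) => p.1 - p.2) := by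
    apply WeakDual.continuous_of_continuous_eval
    intro h
    have h1 : Continuous fun p : WeakDual ℝ (G →ᵇ ℝ) × WeakDual ℝ (G →ᵇ ℝ) => p.1 h - p.2 h :=
      ((WeakDual.eval_continuous h).comp continuous_fst).sub
        ((WeakDual.eval_continuous h).comp continuous_snd)
    exact h1
  have hDcomp : IsCompact D := (hcomp.prod hcomp).image hDcont
  have hDconv : Convex ℝ D := by
    rintro _ ⟨⟨F1, F2⟩, ⟨h1, h2⟩, rfl⟩ _ ⟨⟨F1', F2'⟩, ⟨h1', h2'⟩, rfl⟩ a b ha hb hab
    refine ⟨(a • F1 + b • F1', a • F2 + b • F2'), ⟨⟨?_, ?_⟩, ⟨?_, ?_⟩⟩, ?_⟩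
    · exact (Pos.smul h1.1 ha).add (Pos.smul h1'.1 hb)
    · show a * F1 1 + b * F1' 1 ≤ C
      have e1 : F1 1 ≤ C := h1.2
      have e2 : F1' 1 ≤ C := h1'.2
      calc a * F1 1 + b * F1' 1 ≤ a * C + b * C :=
            add_le_add (mul_le_mul_of_nonneg_left e1 ha) (mul_le_mul_of_nonneg_left e2 hb)
        _ = C := by rw [← add_mul, hab, one_mul]
    · exact (Pos.smul h2.1 ha).add (Pos.smul h2'.1 hb)
    · show a * F2 1 + b * F2' 1 ≤ C
      have e1 : F2 1 ≤ C := h2.2
      have e2 : F2' 1 ≤ C := h2'.2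
      calc a * F2 1 + b * F2' 1 ≤ a * C + b * C :=
            add_le_add (mul_le_mul_of_nonneg_left e1 ha) (mul_le_mul_of_nonneg_left e2 hb)
        _ = C := by rw [← add_mul, hab, one_mul]
    · show (a • F1 + b • F1') - (a • F2 + b • F2') = a • (F1 - F2) + b • (F1' - F2')
      rw [smul_sub, smul_sub]
      abel
  have hmem : StrongDual.toWeakDual X ∈ D := by
    by_contra hcon
    obtain ⟨h, r, hfx, hft⟩ := exists_separation' hDconv hDcomp.isClosed hcon
    have hC0 : 0 ≤ C := norm_nonneg X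
    have hz : (0 : WeakDual ℝ (G →ᵇ ℝ)) ∈ K' := by
      refine ⟨fun h hh => le_rfl, ?_⟩
      exact hC0
    have hev : ∀ t : G, StrongDual.toWeakDual (C • ev t) ∈ K' := by
      intro t
      refine ⟨Pos.smul (fun h hh => hh t) hC0, ?_⟩
      show C * (1 : ℝ) ≤ C
      rw [mul_one]
    have h1 : ∀ t : G, r < C * h t := by
      intro t
      have hm : (StrongDual.toWeakDual (C • ev t) : WeakDual ℝ (G →ᵇ ℝ)) ∈ D :=
        ⟨(StrongDual.toWeakDual (C • ev t), 0), ⟨hev t, hz⟩, sub_zero _⟩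
      exact hft _ hm
    have h2 : ∀ t : G, r < -(C * h t) := by
      intro t
      have hm : (-StrongDual.toWeakDual (C • ev t) : WeakDual ℝ (G →ᵇ ℝ)) ∈ D :=
        ⟨(0, StrongDual.toWeakDual (C • ev t)), ⟨hz, hev t⟩, zero_sub _⟩
      exact hft _ hm
    have hr : r < 0 := hft 0 ⟨(0, 0), ⟨hz, hz⟩, sub_zero _⟩
    have h3 : C * ‖h‖ ≤ -r := by
      rcases eq_or_lt_of_le hC0 with h0 | h0
      · rw [← h0, zero_mul]; linarith
      · rw [mul_comm, ← le_div_iff₀ h0]
        rw [BoundedContinuousFunction.norm_le (div_nonneg (by linarith) h0.le)]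
        intro t
        rw [le_div_iff₀ h0, Real.norm_eq_abs]
        have h4 : |h t| * C = |C * h t| := by rw [abs_mul, abs_of_pos h0, mul_comm]
        rw [h4, abs_le]
        have := h1 t
        have := h2 t
        constructor <;> linarith
    have h4 : |X h| ≤ C * ‖h‖ := X.le_opNorm h
    have h5 : (StrongDual.toWeakDual X : WeakDual ℝ (G →ᵇ ℝ)) h = X h := rfl
    rw [h5] at hfx
    have h6 := (abs_le.1 h4).1
    linarith
  obtain ⟨⟨P, Q⟩, ⟨hP, hQ⟩, hPQ⟩ := hmem
  refine ⟨WeakDual.toStrongDual P, WeakDual.toStrongDual Q, hP.1, hQ.1, ?_⟩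
  have h1 : StrongDual.toWeakDual X = P - Q := hPQ.symm
  have h2 := congrArg WeakDual.toStrongDual h1
  exact h2

end Pool.Agent.BeurlingBidual
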