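import Pool.Agent.BeurlingBidual.Cone

/-! Small sets of an infinite group and functionals vanishing on functions with small support. -/

set_option autoImplicit false
set_option linter.unusedSectionVars false
open scoped Topology BoundedContinuousFunction Cardinal Pointwise
open Filter

namespace Pool.Agent.BeurlingBidual

universe u

/-- a set of cardinality less than the group -/
def Small {G : Type u} (E : Set G) : Prop := #E < #G

section small
variable {G : Type u} [Group G] [Infinite G]

theorem Small.mono {E F : Set G} (hF : Small F) (h : E ⊆ F) : Small E :=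
  (Cardinal.mk_le_mk_of_subset h).trans_lt hF

theorem small_of_finite {E : Set G} (h : E.Finite) : Small E :=
  (Cardinal.lt_aleph0_iff_set_finite.2 h).trans_le (Cardinal.aleph0_le_mk G)

theorem Small.union {E F : Set G} (hE : Small E) (hF : Small F) : Small (E ∪ F) :=
  (Cardinal.mk_union_le E F).trans_lt (Cardinal.add_lt_of_lt (Cardinal.aleph0_le_mk G) hE hF)

theorem Small.image {E : Set G} (hE : Small E) (f : G → G) : Small (f '' E) :=
  Cardinal.mk_image_le.trans_lt hE

theorem Small.mul {E F : Set G} (hE : Small E) (hF : Small F) : Small (E * F) := by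
  have h1 : (E * F) = (fun p : G × G => p.1 * p.2) '' (E ×ˢ F) := by
    rw [Set.image_mul_prod]
  unfold Small
  rw [h1]
  refine Cardinal.mk_image_le.trans_lt ?_
  rw [Cardinal.mk_setProd]
  exact Cardinal.mul_lt_of_lt (Cardinal.aleph0_le_mk G) hE hF

theorem Small.inv {E : Set G} (hE : Small E) : Small E⁻¹ := by
  have : E⁻¹ = (fun x : G => x⁻¹) '' E := by rw [Set.image_inv_eq_inv]
  rw [this]; exact hE.image _

theorem not_small_univ : ¬ Small (Set.univ : Set G) := by
  unfold Small
  rw [Cardinal.mk_univ]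
  exact lt_irrefl _

theorem exists_not_mem_of_small {A E : Set G} (hA : ¬ Small A) (hE : Small E) :
    ∃ x ∈ A, x ∉ E := by
  by_contra hcon
  push Not at hcon
  exact hA (hE.mono hcon)

theorem small_iUnion_finite {J : Type u} (hJ : #J < #G) (F : J → Set G) (hF : ∀ j, (F j).Finite) :
    Small (⋃ j, F j) := by
  rcases finite_or_infinite J with h | h
  · exact small_of_finite (Set.finite_iUnion hF)
  · unfold Small
    refine (Cardinal.mk_iUnion_le_sum_mk.trans ?_).trans_lt hJ
    calc Cardinal.sum (fun j => #(F j)) ≤ Cardinal.sum (fun _ : J => ℵ₀) :=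
          Cardinal.sum_le_sum _ _ fun j => (Cardinal.lt_aleph0_iff_set_finite.2 (hF j)).le
      _ = #J := by
          rw [Cardinal.sum_const']
          exact Cardinal.mul_aleph0_eq (Cardinal.aleph0_le_mk J)

variable (G)
/-- the filter of sets with small complement -/
def cosmall : Filter G where
  sets := {A | Small Aᶜ}
  univ_sets := by
    show Small (Set.univᶜ : Set G)
    rw [Set.compl_univ]
    exact small_of_finite Set.finite_empty
  sets_of_superset := by
    intro A B hA hAB
    exact Small.mono hA (Set.compl_subset_compl.2 hAB)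
  inter_sets := by
    intro A B hA hB
    show Small (A ∩ B)ᶜ
    rw [Set.compl_inter]
    exact Small.union hA hB

theorem cosmall_neBot : (cosmall G).NeBot := by
  refine ⟨fun h => ?_⟩
  have : (∅ : Set G) ∈ cosmall G := by rw [h]; exact Filter.mem_bot
  have h2 : Small ((∅ : Set G)ᶜ) := this
  rw [Set.compl_empty] at h2
  exact not_small_univ h2

end small

section functional
variable {G : Type u} [Group G] [TopologicalSpace G] [DiscreteTopology G]

/-- indicator function -/
noncomputable def ind (A : Set G) : G →ᵇ ℝ :=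
  mkB (A.indicator fun _ => (1 : ℝ)) 1 (fun x => by
    by_cases h : x ∈ A <;> simp [h])

theorem ind_apply_mem {A : Set G} {x : G} (h : x ∈ A) : ind A x = 1 := by
  simp [ind, h]

theorem ind_apply_not_mem {A : Set G} {x : G} (h : x ∉ A) : ind A x = 0 := by
  simp [ind, h]

theorem ind_nonneg (A : Set G) (x : G) : 0 ≤ ind A x := by
  by_cases h : x ∈ A
  · rw [ind_apply_mem h]; exact zero_le_one
  · rw [ind_apply_not_mem h]

theorem ind_le_one (A : Set G) (x : G) : ind A x ≤ 1 := by
  by_cases h : x ∈ A
  · rw [ind_apply_mem h]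
  · rw [ind_apply_not_mem h]; exact zero_le_one

/-- functions with small support -/
def NS (G : Type u) [Group G] [TopologicalSpace G] : Set (G →ᵇ ℝ) :=
  {h | Small {t | h t ≠ 0}}

theorem NS_M (W : Twist G) [Infinite G] (h : G →ᵇ ℝ) (hh : h ∈ NS G) (s : G) :
    W.M s h ∈ NS G := by
  have : {t | W.M s h t ≠ 0} ⊆ (fun t => s⁻¹ * t) '' {t | h t ≠ 0} := by
    intro t ht
    refine ⟨s * t, ?_, by simp⟩
    intro h0
    apply ht
    rw [Twist.M_apply, h0, mul_zero]
  exact (Small.image hh _).mono this

/-- evaluation -/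
noncomputable def ev (t : G) : (G →ᵇ ℝ) →L[ℝ] ℝ := BoundedContinuousFunction.evalCLM ℝ t

@[simp] theorem ev_apply (t : G) (h : G →ᵇ ℝ) : ev t h = h t := rfl

theorem norm_ev_le (t : G) : ‖(ev t : (G →ᵇ ℝ) →L[ℝ] ℝ)‖ ≤ 1 := by
  refine ContinuousLinearMap.opNorm_le_bound _ zero_le_one fun h => ?_
  rw [one_mul]
  exact h.norm_coe_le_norm t

theorem exists_null_pos [Infinite G] :
    ∃ F : (G →ᵇ ℝ) →L[ℝ] ℝ, Pos F ∧ (∀ h ∈ NS G, F h = 0) ∧ F 1 = 1 := by
  have := cosmall_neBot G
  obtain ⟨F, -, hF⟩ := exists_limit (Ultrafilter.of (cosmall G)) (fun t : G => ev t) 1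
    (fun t => norm_ev_le t)
  have hle : ((Ultrafilter.of (cosmall G) : Ultrafilter G) : Filter G) ≤ cosmall G :=
    Ultrafilter.of_le _
  refine ⟨F, ?_, ?_, ?_⟩
  · intro h hh
    exact ge_of_tendsto (hF h) (Eventually.of_forall fun t => hh t)
  · intro h hh
    have h1 : ∀ᶠ t in ((Ultrafilter.of (cosmall G) : Ultrafilter G) : Filter G), ev t h = 0 := by
      apply hle
      show Small {t | ev t h = 0}ᶜ
      exact hh
    have h2 : Tendsto (fun t : G => ev t h) (Ultrafilter.of (cosmall G)) (𝓝 0) :=
      (tendsto_congr' h1).2 tendsto_const_nhds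
    exact tendsto_nhds_unique (hF h) h2
  · have h2 : Tendsto (fun t : G => ev t (1 : G →ᵇ ℝ)) (Ultrafilter.of (cosmall G)) (𝓝 1) := by
      have : (fun t : G => ev t (1 : G →ᵇ ℝ)) = fun _ => (1 : ℝ) := by
        funext t; simp
      rw [this]
      exact tendsto_const_nhds
    exact tendsto_nhds_unique (hF 1) h2

variable (W : Twist G)

/-- Functionals vanishing on functions with small support form a right ideal. -/
theorem box_null [Infinite G] {F P : (G →ᵇ ℝ) →L[ℝ] ℝ} (hF : Pos F) (hP : Pos P)
    (hF0 : ∀ h ∈ NS G, F h = 0) : ∀ h ∈ NS G, W.box F P h = 0 := by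
  intro h hh
  set E : Set G := {t | h t ≠ 0} with hE
  have hEs : Small E := hh
  -- mass of the translates of `E`
  have key : ∀ δ : ℝ, 0 < δ → Small {s : G | δ < P (ind {t | s * t ∈ E})} := by
    intro δ hδ
    by_contra hbig
    have hT : ∀ m : ℕ, ∃ T : Finset G, T.card = m ∧
        (∀ s ∈ T, δ < P (ind {t | s * t ∈ E})) ∧
        (∀ s ∈ T, ∀ s' ∈ T, s ≠ s' → ∀ t, ¬ (s * t ∈ E ∧ s' * t ∈ E)) := by
      intro m
      induction m with
      | zero => exact ⟨∅, rfl, by simp, by simp⟩
      | succ m ih =>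
        obtain ⟨T, hTc, hT1, hT2⟩ := ih
        have hbad : Small ((E * E⁻¹) * (T : Set G) ∪ (T : Set G)) :=
          ((hEs.mul hEs.inv).mul (small_of_finite T.finite_toSet)).union
            (small_of_finite T.finite_toSet)
        obtain ⟨s, hs, hsb⟩ := exists_not_mem_of_small hbig hbad
        have hsT : s ∉ T := fun h => hsb (Or.inr h)
        have hdis : ∀ l ∈ T, ∀ t, ¬ (s * t ∈ E ∧ l * t ∈ E) := by
          rintro l hl t ⟨h1, h2⟩
          apply hsb
          left
          refine ⟨(s * t) * (l * t)⁻¹, ⟨s * t, h1, (l * t)⁻¹, ?_, rfl⟩, l, hl, ?_⟩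
          · rw [Set.mem_inv, inv_inv]; exact h2
          · group
        classical
        refine ⟨insert s T, by rw [Finset.card_insert_of_notMem hsT, hTc], ?_, ?_⟩
        · intro s' hs'
          rcases Finset.mem_insert.1 hs' with rfl | h'
          · exact hs
          · exact hT1 s' h'
        · intro s1 h1 s2 h2 hne t
          rcases Finset.mem_insert.1 h1 with rfl | h1'
          · rcases Finset.mem_insert.1 h2 with rfl | h2'
            · exact absurd rfl hne
            · exact hdis s2 h2' t
          · rcases Finset.mem_insert.1 h2 with rfl | h2'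
            · intro hh'
              exact hdis s1 h1' t ⟨hh'.2, hh'.1⟩
            · exact hT2 s1 h1' s2 h2' hne t
    obtain ⟨m, hm⟩ := exists_nat_gt (P 1 / δ)
    obtain ⟨T, hTc, hT1, hT2⟩ := hT m
    have h1 : (m : ℝ) * δ ≤ ∑ s ∈ T, P (ind {t | s * t ∈ E}) := by
      rw [← hTc, ← nsmul_eq_mul]
      exact Finset.card_nsmul_le_sum _ _ _ fun s hs => (hT1 s hs).le
    have h2 : ∑ s ∈ T, P (ind {t | s * t ∈ E}) ≤ P 1 := by
      rw [← map_sum]
      apply hP.mono
      intro t
      rw [BoundedContinuousFunction.coe_sum, Finset.sum_apply]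
      by_cases ht : ∃ s ∈ T, s * t ∈ E
      · obtain ⟨s, hs, hst⟩ := ht
        rw [Finset.sum_eq_single s]
        · exact ind_le_one _ _
        · intro s' hs' hne
          apply ind_apply_not_mem
          intro hst'
          exact hT2 s hs s' hs' hne.symm t ⟨hst, hst'⟩
        · intro h'; exact absurd hs h'
      · push Not at ht
        rw [Finset.sum_eq_zero]
        · simp
        · intro s hs
          exact ind_apply_not_mem (ht s hs)
    rw [div_lt_iff₀ hδ] at hm
    linarith
  -- conclusion
  have hbound : ∀ s : G, |W.T P h s| ≤ ‖h‖ * P (ind {t | s * t ∈ E}) := by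
    intro s
    have hab : ∀ t, |W.M s h t| ≤ (‖h‖ • ind {t | s * t ∈ E}) t := by
      intro t
      have hsm : (‖h‖ • ind {t | s * t ∈ E}) t = ‖h‖ * ind {t | s * t ∈ E} t := rfl
      rw [Twist.M_apply, hsm]
      by_cases ht : s * t ∈ E
      · rw [ind_apply_mem (A := {t | s * t ∈ E}) ht, mul_one]
        exact W.norm_mul_le h s t
      · have h0 : h (s * t) = 0 := by
          by_contra hne
          exact ht hne
        rw [h0, mul_zero, abs_zero, ind_apply_not_mem (A := {t | s * t ∈ E}) ht, mul_zero]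
    rw [Twist.T_apply, ← smul_eq_mul, ← map_smul]
    rw [abs_le]
    constructor
    · rw [← map_neg]
      exact hP.mono fun t => (neg_le_neg (hab t)).trans (neg_abs_le _)
    · exact hP.mono fun t => (le_abs_self _).trans (hab t)
  have hfin : ∀ δ : ℝ, 0 < δ → |W.box F P h| ≤ δ * (‖h‖ * F 1) := by
    intro δ hδ
    set S : Set G := {s : G | δ < P (ind {t | s * t ∈ E})} with hS
    have hdecomp : W.T P h = ind S * W.T P h + ind Sᶜ * W.T P h := by
      ext s
      rw [BoundedContinuousFunction.coe_add, Pi.add_apply, BoundedContinuousFunction.coe_mul,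
        BoundedContinuousFunction.coe_mul, Pi.mul_apply, Pi.mul_apply]
      by_cases hs : s ∈ S
      · rw [ind_apply_mem hs, ind_apply_not_mem (A := Sᶜ) (by simpa using hs)]; ring
      · rw [ind_apply_not_mem hs, ind_apply_mem (A := Sᶜ) hs]; ring
    have h1 : F (ind S * W.T P h) = 0 := by
      apply hF0
      refine (key δ hδ).mono ?_
      intro s hs
      by_contra hsS
      apply hs
      rw [BoundedContinuousFunction.coe_mul, Pi.mul_apply, ind_apply_not_mem hsS, zero_mul]
    have h2 : ‖ind Sᶜ * W.T P h‖ ≤ δ * ‖h‖ := by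
      rw [BoundedContinuousFunction.norm_le (by positivity)]
      intro s
      rw [BoundedContinuousFunction.coe_mul, Pi.mul_apply]
      by_cases hs : s ∈ S
      · rw [ind_apply_not_mem (A := Sᶜ) (by simpa using hs), zero_mul, norm_zero]
        positivity
      · rw [ind_apply_mem (A := Sᶜ) hs, one_mul]
        have h3 : P (ind {t | s * t ∈ E}) ≤ δ := not_lt.1 hs
        calc ‖W.T P h s‖ ≤ ‖h‖ * P (ind {t | s * t ∈ E}) := hbound s
          _ ≤ ‖h‖ * δ := mul_le_mul_of_nonneg_left h3 (norm_nonneg _)
          _ = δ * ‖h‖ := mul_comm _ _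
    rw [Twist.box_apply, hdecomp, map_add, h1, zero_add]
    calc |F (ind Sᶜ * W.T P h)| ≤ ‖ind Sᶜ * W.T P h‖ * F 1 := hF.abs_le _
      _ ≤ (δ * ‖h‖) * F 1 := mul_le_mul_of_nonneg_right h2 hF.one_nonneg
      _ = δ * (‖h‖ * F 1) := by ring
  by_contra hne
  have h1 : 0 < |W.box F P h| := abs_pos.2 hne
  have hA : 0 ≤ ‖h‖ * F 1 := mul_nonneg (norm_nonneg _) hF.one_nonneg
  have h2 := hfin (|W.box F P h| / (2 * (‖h‖ * F 1 + 1))) (by positivity)
  have h3 : |W.box F P h| / (2 * (‖h‖ * F 1 + 1)) * (‖h‖ * F 1) < |W.box F P h| := by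
    rw [div_mul_eq_mul_div, div_lt_iff₀ (by positivity)]
    nlinarith
  linarith

end functional

end Pool.Agent.BeurlingBidual
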