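import Mathlib

/-! Bounded functions on a discrete group, twisted translations and the product of functionals. -/

set_option autoImplicit false
set_option linter.unusedSectionVars false
open scoped BoundedContinuousFunction

namespace Pool.Agent.BeurlingBidual

universe u

/-- A normalised weight cocycle `Ω(s,t) = ω(st) / (ω(s) ω(t))`. -/
structure Twist (G : Type u) [Group G] where
  /-- the cocycle -/
  Ω : G → G → ℝ
  pos : ∀ s t, 0 < Ω s t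
  le_one : ∀ s t, Ω s t ≤ 1
  cocycle : ∀ s t r, Ω s t * Ω (s * t) r = Ω t r * Ω s (t * r)
  one_left : ∀ t, Ω 1 t = 1

variable {G : Type u} [Group G] [TopologicalSpace G] [DiscreteTopology G]

/-- a bounded function on a discrete space -/
noncomputable def mkB (f : G → ℝ) (C : ℝ) (h : ∀ x, ‖f x‖ ≤ C) : G →ᵇ ℝ :=
  BoundedContinuousFunction.ofNormedAddCommGroupDiscrete f C h

@[simp] theorem mkB_apply (f : G → ℝ) (C : ℝ) (h : ∀ x, ‖f x‖ ≤ C) (x : G) :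
    mkB f C h x = f x := rfl

variable (W : Twist G)

theorem Twist.norm_mul_le (h : G →ᵇ ℝ) (s t : G) : ‖W.Ω s t * h (s * t)‖ ≤ ‖h‖ := by
  rw [norm_mul, Real.norm_of_nonneg (W.pos s t).le]
  calc W.Ω s t * ‖h (s * t)‖ ≤ 1 * ‖h‖ := by
        apply mul_le_mul (W.le_one s t) (h.norm_coe_le_norm _) (norm_nonneg _) zero_le_one
    _ = ‖h‖ := one_mul _

/-- twisted translation `(M_s h)(t) = Ω(s,t) h(st)` -/
noncomputable def Twist.M (s : G) : (G →ᵇ ℝ) →L[ℝ] (G →ᵇ ℝ) :=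
  LinearMap.mkContinuous
    { toFun := fun h => mkB (fun t => W.Ω s t * h (s * t)) ‖h‖ (W.norm_mul_le h s)
      map_add' := fun h k => by ext t; simp [mul_add]
      map_smul' := fun c h => by ext t; simp; ring } 1 (fun h => by
        rw [one_mul]
        exact (BoundedContinuousFunction.norm_le (norm_nonneg _)).2 fun t => W.norm_mul_le h s t)

@[simp] theorem Twist.M_apply (s : G) (h : G →ᵇ ℝ) (t : G) :
    W.M s h t = W.Ω s t * h (s * t) := rfl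

theorem Twist.norm_M_le (s : G) (h : G →ᵇ ℝ) : ‖W.M s h‖ ≤ ‖h‖ :=
  (BoundedContinuousFunction.norm_le (norm_nonneg _)).2 fun t => W.norm_mul_le h s t

theorem Twist.M_M (s t : G) (h : G →ᵇ ℝ) : W.M t (W.M s h) = W.Ω s t • W.M (s * t) h := by
  ext r
  simp only [Twist.M_apply, BoundedContinuousFunction.coe_smul, smul_eq_mul]
  rw [mul_assoc s t r, ← mul_assoc, ← W.cocycle, mul_assoc]

theorem Twist.M_one (h : G →ᵇ ℝ) : W.M 1 h = h := by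
  ext t; simp [W.one_left]

theorem Twist.norm_T_le (F : (G →ᵇ ℝ) →L[ℝ] ℝ) (h : G →ᵇ ℝ) (s : G) :
    ‖F (W.M s h)‖ ≤ ‖F‖ * ‖h‖ :=
  (F.le_opNorm _).trans (mul_le_mul_of_nonneg_left (W.norm_M_le s h) (norm_nonneg _))

/-- `(T_F h)(s) = F(M_s h)` -/
noncomputable def Twist.T (F : (G →ᵇ ℝ) →L[ℝ] ℝ) : (G →ᵇ ℝ) →L[ℝ] (G →ᵇ ℝ) :=
  LinearMap.mkContinuous
    { toFun := fun h => mkB (fun s => F (W.M s h)) (‖F‖ * ‖h‖) (W.norm_T_le F h)
      map_add' := fun h k => by ext t; simp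
      map_smul' := fun c h => by ext t; simp } ‖F‖ (fun h =>
        (BoundedContinuousFunction.norm_le (by positivity)).2 fun t => W.norm_T_le F h t)

@[simp] theorem Twist.T_apply (F : (G →ᵇ ℝ) →L[ℝ] ℝ) (h : G →ᵇ ℝ) (s : G) :
    W.T F h s = F (W.M s h) := rfl

theorem Twist.T_M (F : (G →ᵇ ℝ) →L[ℝ] ℝ) (s : G) (h : G →ᵇ ℝ) :
    W.T F (W.M s h) = W.M s (W.T F h) := by
  ext t
  simp only [Twist.T_apply, Twist.M_apply, Twist.M_M, map_smul, smul_eq_mul]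

/-- the (first Arens) product of functionals -/
noncomputable def Twist.box (P F : (G →ᵇ ℝ) →L[ℝ] ℝ) : (G →ᵇ ℝ) →L[ℝ] ℝ := P ∘L W.T F

@[simp] theorem Twist.box_apply (P F : (G →ᵇ ℝ) →L[ℝ] ℝ) (h : G →ᵇ ℝ) :
    W.box P F h = P (W.T F h) := rfl

theorem Twist.T_box (P F : (G →ᵇ ℝ) →L[ℝ] ℝ) (h : G →ᵇ ℝ) :
    W.T (W.box P F) h = W.T P (W.T F h) := by
  ext s
  simp [Twist.T_M]

theorem Twist.box_assoc (X Y Z : (G →ᵇ ℝ) →L[ℝ] ℝ) :
    W.box (W.box X Y) Z = W.box X (W.box Y Z) := by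
  ext h
  simp [Twist.T_box]

theorem Twist.T_add (P F : (G →ᵇ ℝ) →L[ℝ] ℝ) (h : G →ᵇ ℝ) :
    W.T (P + F) h = W.T P h + W.T F h := by
  ext s; simp

theorem Twist.T_smul (c : ℝ) (F : (G →ᵇ ℝ) →L[ℝ] ℝ) (h : G →ᵇ ℝ) :
    W.T (c • F) h = c • W.T F h := by
  ext s; simp

theorem Twist.add_box (X Y Z : (G →ᵇ ℝ) →L[ℝ] ℝ) :
    W.box (X + Y) Z = W.box X Z + W.box Y Z := by
  ext h; simp

theorem Twist.box_add (X Y Z : (G →ᵇ ℝ) →L[ℝ] ℝ) :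
    W.box X (Y + Z) = W.box X Y + W.box X Z := by
  ext h; simp [Twist.T_add]

theorem Twist.sub_box (X Y Z : (G →ᵇ ℝ) →L[ℝ] ℝ) :
    W.box (X - Y) Z = W.box X Z - W.box Y Z := by
  ext h; simp

theorem Twist.smul_box (c : ℝ) (X Y : (G →ᵇ ℝ) →L[ℝ] ℝ) :
    W.box (c • X) Y = c • W.box X Y := by
  ext h; simp

theorem Twist.box_smul (c : ℝ) (X Y : (G →ᵇ ℝ) →L[ℝ] ℝ) :
    W.box X (c • Y) = c • W.box X Y := by
  ext h; simp [Twist.T_smul]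

theorem Twist.box_sub (X Y Z : (G →ᵇ ℝ) →L[ℝ] ℝ) :
    W.box X (Y - Z) = W.box X Y - W.box X Z := by
  ext h
  have : W.T (Y - Z) h = W.T Y h - W.T Z h := by ext s; simp
  simp [this]

/-- positive functional -/
def Pos (F : (G →ᵇ ℝ) →L[ℝ] ℝ) : Prop := ∀ h : G →ᵇ ℝ, (∀ t, 0 ≤ h t) → 0 ≤ F h

theorem Pos.mono {F : (G →ᵇ ℝ) →L[ℝ] ℝ} (hF : Pos F) {h k : G →ᵇ ℝ} (hk : ∀ t, h t ≤ k t) :
    F h ≤ F k := by
  have := hF (k - h) (fun t => by simpa using hk t)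
  rw [map_sub] at this
  linarith

theorem Pos.add {F F' : (G →ᵇ ℝ) →L[ℝ] ℝ} (hF : Pos F) (hF' : Pos F') : Pos (F + F') :=
  fun h hh => add_nonneg (hF h hh) (hF' h hh)

theorem Pos.smul {F : (G →ᵇ ℝ) →L[ℝ] ℝ} (hF : Pos F) {c : ℝ} (hc : 0 ≤ c) : Pos (c • F) :=
  fun h hh => mul_nonneg hc (hF h hh)

theorem Twist.M_nonneg (s : G) {h : G →ᵇ ℝ} (hh : ∀ t, 0 ≤ h t) (t : G) : 0 ≤ W.M s h t :=
  mul_nonneg (W.pos s t).le (hh _)

theorem Twist.T_nonneg {F : (G →ᵇ ℝ) →L[ℝ] ℝ} (hF : Pos F) {h : G →ᵇ ℝ} (hh : ∀ t, 0 ≤ h t)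
    (s : G) : 0 ≤ W.T F h s := hF _ (W.M_nonneg s hh)

theorem Twist.T_mono {F : (G →ᵇ ℝ) →L[ℝ] ℝ} (hF : Pos F) {h k : G →ᵇ ℝ} (hk : ∀ t, h t ≤ k t)
    (s : G) : W.T F h s ≤ W.T F k s := by
  apply hF.mono
  intro t
  exact mul_le_mul_of_nonneg_left (hk _) (W.pos s t).le

theorem Twist.box_pos {P F : (G →ᵇ ℝ) →L[ℝ] ℝ} (hP : Pos P) (hF : Pos F) : Pos (W.box P F) :=
  fun _ hh => hP _ (W.T_nonneg hF hh)

theorem Pos.abs_le {F : (G →ᵇ ℝ) →L[ℝ] ℝ} (hF : Pos F) (h : G →ᵇ ℝ) :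
    |F h| ≤ ‖h‖ * F 1 := by
  have h1 : F h ≤ ‖h‖ * F 1 := by
    rw [← smul_eq_mul, ← map_smul]
    apply hF.mono
    intro t
    simpa using (le_abs_self _).trans (h.norm_coe_le_norm t)
  have h2 : -(‖h‖ * F 1) ≤ F h := by
    rw [← smul_eq_mul, ← map_smul, ← map_neg]
    apply hF.mono
    intro t
    simpa using (neg_le_neg (h.norm_coe_le_norm t)).trans (neg_abs_le _)
  exact _root_.abs_le.2 ⟨h2, h1⟩

theorem Pos.eq_zero {F : (G →ᵇ ℝ) →L[ℝ] ℝ} (hF : Pos F) (h1 : F 1 = 0) : F = 0 := by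
  ext h
  have := hF.abs_le h
  rw [h1, mul_zero] at this
  simpa using abs_nonpos_iff.1 this

theorem Pos.one_nonneg {F : (G →ᵇ ℝ) →L[ℝ] ℝ} (hF : Pos F) : 0 ≤ F 1 :=
  hF 1 (fun _ => zero_le_one)

theorem Pos.norm_le {F : (G →ᵇ ℝ) →L[ℝ] ℝ} (hF : Pos F) : ‖F‖ ≤ F 1 := by
  apply F.opNorm_le_bound hF.one_nonneg
  intro h
  rw [Real.norm_eq_abs, mul_comm]
  exact hF.abs_le h

end Pool.Agent.BeurlingBidual
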